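import Pool.Agent.H160.KD.Mom
import Pool.Agent.Y254.EL.Dual3
set_option autoImplicit false

/-!
# Colouring of separated directions, and tubes which are thicker than the separation
-/

open MeasureTheory Set Metric
open scoped ENNReal NNReal

namespace Pool.Agent.H160.KD
open Pool.Agent.Y254 (tube tube_meas tube_closed vol_near vol_tube Cv Cv_pos cell cell_close
  cell_near mult mult_meas mult_le pmult pmult_eq sum_card_parts floor_near pack)
open Pool.Agent.TH705.RR (E vb vb_pos vol_cball Rod vol_rod)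

/-- Separated unit vectors in a cap. -/
theorem capcount {n : ℕ} (hn : 1 ≤ n) : ∃ K : ℝ, 1 ≤ K ∧ ∀ (δ : ℝ), 0 < δ → ∀ {ι : Type}
    (e : ι → E n), (∀ i, ‖e i‖ = 1) → (∀ i j, i ≠ j → δ ≤ ‖e i - e j‖) →
    ∀ (w : E n), ‖w‖ = 1 → ∀ (J : Finset ι) (φ : ℝ), δ ≤ φ → φ ≤ 2 → (∀ j ∈ J, ‖w - e j‖ ≤ φ) →
      (J.card : ℝ) ≤ K * (φ / δ) ^ (n - 1) := by
  obtain ⟨m, rfl⟩ : ∃ m, n = m + 1 := ⟨n - 1, by omega⟩
  have hv := vb_pos (m + 1)
  simp only [Nat.add_sub_cancel]
  refine ⟨8 ^ (m + 1) * (2 ^ (m + 1) * 14 * 2 ^ m) + 1, by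
    nlinarith [show (0:ℝ) ≤ 8 ^ (m + 1) * (2 ^ (m + 1) * 14 * 2 ^ m) by positivity], ?_⟩
  intro δ hδ ι e he hsep w hw J φ hφ hφ2 hJ
  have hφ0 : 0 < φ := by linarith
  have hV : volume (Rod (0 : E (m + 1)) w 1 (2 * φ)) ≤ _ :=
    vol_rod (n := m + 1) (by omega) 0 hw (by positivity) (by positivity)
  rw [Nat.add_sub_cancel] at hV
  have hp := pack (n := m + 1) hδ e he hsep J (by positivity) hV (by
    intro j hj t ht1 ht2 x hx
    refine ⟨t, ?_, ?_⟩
    · rw [abs_of_nonneg (by linarith)]; exact ht2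
    · have h1 : x - 0 - t • w = (x - t • e j) - t • (w - e j) := by
        rw [smul_sub, sub_zero]; abel
      rw [h1]
      refine (norm_sub_le _ _).trans ?_
      rw [norm_smul, Real.norm_eq_abs, abs_of_nonneg (by linarith)]
      have h2 := hJ j hj
      have h3 := norm_nonneg (w - e j)
      nlinarith)
  have h1 : (J.card : ℝ) * (2 / δ) * (δ / 8) ^ (m + 1) ≤ 2 ^ (m + 1) * 14 * (2 * φ) ^ m := by
    have h2 : (J.card : ℝ) * (2 / δ) * (δ / 8) ^ (m + 1) * vb (m + 1) ≤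
        (2 ^ (m + 1) * 14 * (2 * φ) ^ m) * vb (m + 1) := by
      calc _ = (J.card : ℝ) * (2 / δ) * ((δ / 8) ^ (m + 1) * vb (m + 1)) := by ring
        _ ≤ 2 ^ (m + 1) * vb (m + 1) * (2 * 1 + 3 * (2 * φ)) * (2 * φ) ^ m := hp
        _ ≤ 2 ^ (m + 1) * vb (m + 1) * 14 * (2 * φ) ^ m := by
            gcongr
            linarith
        _ = _ := by ring
    exact le_of_mul_le_mul_right h2 hv
  have h5 : (J.card : ℝ) * δ ^ m ≤ 8 ^ (m + 1) * (2 ^ (m + 1) * 14 * 2 ^ m) * φ ^ m := by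
    have h4 : (J.card : ℝ) * δ ^ m * 2 = (J.card : ℝ) * (2 / δ) * (δ / 8) ^ (m + 1) * 8 ^ (m + 1) := by
      rw [div_pow, pow_succ δ m]
      field_simp
    have h6 : 0 ≤ (J.card : ℝ) * δ ^ m := by positivity
    calc (J.card : ℝ) * δ ^ m ≤ (J.card : ℝ) * δ ^ m * 2 := by linarith
      _ = (J.card : ℝ) * (2 / δ) * (δ / 8) ^ (m + 1) * 8 ^ (m + 1) := h4
      _ ≤ (2 ^ (m + 1) * 14 * (2 * φ) ^ m) * 8 ^ (m + 1) := by gcongr
      _ = _ := by rw [mul_pow]; ring
  have h6 : (J.card : ℝ) ≤ 8 ^ (m + 1) * (2 ^ (m + 1) * 14 * 2 ^ m) * (φ / δ) ^ m := by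
    rw [div_pow, ← mul_div_assoc, le_div_iff₀ (by positivity)]
    exact h5
  have h7 : 0 ≤ (φ / δ) ^ m := by positivity
  linarith

/-- The number of separated unit vectors. -/
theorem dircount {n : ℕ} (hn : 1 ≤ n) : ∃ K : ℝ, 1 ≤ K ∧ ∀ (δ : ℝ), 0 < δ → δ < 1 →
    ∀ {ι : Type} [Fintype ι] (e : ι → E n), (∀ i, ‖e i‖ = 1) →
    (∀ i j, i ≠ j → δ ≤ ‖e i - e j‖) → (Fintype.card ι : ℝ) ≤ K * (1 / δ) ^ (n - 1) := by
  obtain ⟨K, hK, h⟩ := capcount hn
  refine ⟨K * 2 ^ (n - 1), ?_, ?_⟩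
  · have : (1 : ℝ) ≤ 2 ^ (n - 1) := one_le_pow₀ (by norm_num)
    nlinarith
  intro δ hδ hδ1 ι _ e he hsep
  rcases isEmpty_or_nonempty ι with h0 | ⟨⟨i0⟩⟩
  · rw [Fintype.card_eq_zero, Nat.cast_zero]; positivity
  have h1 := h δ hδ e he hsep (e i0) (he i0) Finset.univ 2 (by linarith) le_rfl (by
    intro j _
    refine (norm_sub_le _ _).trans ?_
    rw [he, he]; norm_num)
  rw [Finset.card_univ] at h1
  refine h1.trans (le_of_eq ?_)
  rw [div_pow, div_pow, one_pow]
  ring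

/-- Colouring of separated unit vectors by more separated ones. -/
theorem colorE {n : ℕ} (hn : 1 ≤ n) : ∃ K : ℝ, 1 ≤ K ∧ ∀ (δ τ : ℝ), 0 < δ → δ < 1 → δ ≤ τ →
    ∀ {ι : Type} [Fintype ι] (e : ι → E n), (∀ i, ‖e i‖ = 1) →
    (∀ i j, i ≠ j → δ ≤ ‖e i - e j‖) → ∃ (D : Type) (_ : Fintype D) (_ : DecidableEq D) (κ : ι → D),
      (Fintype.card D : ℝ) ≤ K * (τ / δ) ^ (n - 1) ∧
      ∀ i j, κ i = κ j → i ≠ j → τ ≤ ‖e i - e j‖ := by
  classical
  obtain ⟨K, hK, hcap⟩ := capcount hn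
  have hsn : (1 : ℝ) ≤ Real.sqrt n := by
    rw [show (1 : ℝ) = Real.sqrt 1 by simp]
    exact Real.sqrt_le_sqrt (by exact_mod_cast hn)
  refine ⟨2 ^ n * (K * Real.sqrt n ^ (n - 1)), ?_, ?_⟩
  · have h1 : (1 : ℝ) ≤ 2 ^ n := one_le_pow₀ (by norm_num)
    have h2 : (1 : ℝ) ≤ Real.sqrt n ^ (n - 1) := one_le_pow₀ hsn
    calc (1 : ℝ) = 1 * (1 * 1) := by norm_num
      _ ≤ _ := by gcongr
  intro δ τ hδ hδ1 hτ ι _ e he hsep
  have hτ0 : 0 < τ := by linarith
  set c : ι → Fin n → ℤ := fun i => cell τ (e i) with hc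
  set m : ℕ := ⌊K * (Real.sqrt n * τ / δ) ^ (n - 1)⌋₊ with hm
  have hcard : ∀ a : Fin n → ℤ, Fintype.card {i // c i = a} ≤ m := by
    intro a
    rcases isEmpty_or_nonempty {i // c i = a} with h0 | ⟨⟨i0, hi0⟩⟩
    · rw [Fintype.card_eq_zero]; exact Nat.zero_le _
    · rw [Fintype.card_subtype, hm]
      apply Nat.le_floor
      have hclose : ∀ j ∈ Finset.univ.filter (fun i => c i = a), ‖e i0 - e j‖ ≤ Real.sqrt n * τ := by
        intro j hj
        have hj' : c j = a := (Finset.mem_filter.1 hj).2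
        exact cell_close hτ0 (hi0.trans hj'.symm)
      have hφδ : δ ≤ Real.sqrt n * τ := by nlinarith
      rcases le_total (Real.sqrt n * τ) 2 with h2 | h2
      · exact hcap δ hδ e he hsep (e i0) (he i0) _ _ hφδ h2 hclose
      · refine (hcap δ hδ e he hsep (e i0) (he i0) _ 2 (by linarith) le_rfl (fun j _ => ?_)).trans ?_
        · refine (norm_sub_le _ _).trans ?_
          rw [he, he]; norm_num
        · gcongr
  have hemb : ∀ a : Fin n → ℤ, Nonempty ({i // c i = a} ↪ Fin m) := by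
    intro a
    rw [Function.Embedding.nonempty_iff_card_le, Fintype.card_fin]
    exact hcard a
  obtain ⟨em⟩ : Nonempty (∀ a : Fin n → ℤ, {i // c i = a} ↪ Fin m) := ⟨fun a => (hemb a).some⟩
  refine ⟨(Fin n → Bool) × Fin m, inferInstance, inferInstance,
    fun i => (fun k => decide (Even (c i k)), em (c i) ⟨i, rfl⟩), ?_, ?_⟩
  · rw [Fintype.card_prod, Fintype.card_fun, Fintype.card_bool, Fintype.card_fin, Fintype.card_fin]
    push_cast
    have h1 : (m : ℝ) ≤ K * (Real.sqrt n * τ / δ) ^ (n - 1) := Nat.floor_le (by positivity)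
    calc (2 : ℝ) ^ n * m ≤ 2 ^ n * (K * (Real.sqrt n * τ / δ) ^ (n - 1)) := by gcongr
      _ = _ := by rw [mul_div_assoc, mul_pow]; ring
  · intro i j hij hne
    by_contra hcon
    rw [not_le] at hcon
    rw [Prod.mk.injEq] at hij
    obtain ⟨h1, h2⟩ := hij
    have h3 : c i = c j := by
      funext k
      have h6 := cell_near hτ0 hcon
      rw [Fintype.mem_piFinset] at h6
      have h6' := h6 k
      rw [Finset.mem_Icc] at h6'
      have h7 : (Even (c i k)) ↔ Even (c j k) := by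
        have := congrFun h1 k
        simpa using this
      have h8 : cell τ (e i) k = c i k := rfl
      have h9 : cell τ (e j) k = c j k := rfl
      rw [h8, h9] at h6'
      obtain ⟨h10, h11⟩ := h6'
      have h12 : c j k = c i k - 1 ∨ c j k = c i k ∨ c j k = c i k + 1 := by omega
      rcases h12 with h | h | h
      · exfalso
        rw [h] at h7
        by_cases hev : Even (c i k)
        · have := h7.1 hev
          rw [Int.even_sub_one] at this
          exact this hev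
        · exact hev (h7.2 (by rw [Int.even_sub_one]; exact hev))
      · exact h.symm
      · exfalso
        rw [h] at h7
        by_cases hev : Even (c i k)
        · have := h7.1 hev
          rw [Int.even_add_one] at this
          exact this hev
        · exact hev (h7.2 (by rw [Int.even_add_one]; exact hev))
    have h13 : ∀ (a : Fin n → ℤ) (hia : c i = a) (hja : c j = a),
        em a ⟨i, hia⟩ = em a ⟨j, hja⟩ → i = j := by
      intro a hia hja h
      have := (em a).injective h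
      exact congrArg Subtype.val this
    apply hne
    refine h13 (c j) h3 rfl ?_
    rw [← h2]
    have h14 : ∀ (a : Fin n → ℤ) (h : c i = a), em a ⟨i, h⟩ = em (c i) ⟨i, rfl⟩ := by
      intro a h
      subst h
      rfl
    exact h14 (c j) h3

/-- The inequality of the problem at the scale `δ` (in `q`-th powers), with the constant `C`. -/
def WorstC (d : ℕ) (q δ C : ℝ) : Prop := ∀ (ι : Type) [Fintype ι]
    (a e : ι → E (d + 1)), (∀ i, ‖e i‖ = 1) →
    (∀ i j, i ≠ j → δ ≤ ‖e i - e j‖) →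
    ∫⁻ x, mult (fun i => tube δ (a i) (e i)) x ^ q ≤
      ENNReal.ofReal (C * (δ ^ d * (Fintype.card ι : ℝ) ^ (q - 1 / (d : ℝ))))

/-- The inequality for families which are less separated than their width. -/
theorem lessE {d : ℕ} (hd : 1 ≤ d) {q : ℝ} (hq : 1 + 1 / (d : ℝ) ≤ q) : ∃ K : ℝ, 1 ≤ K ∧
    ∀ (C δ τ : ℝ), 0 ≤ C → 0 < δ → δ < 1 → δ ≤ τ → WorstC d q τ C →
    ∀ (ι : Type) [Fintype ι] (a e : ι → E (d + 1)), (∀ i, ‖e i‖ = 1) →
    (∀ i j, i ≠ j → δ ≤ ‖e i - e j‖) →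
    ∫⁻ x, mult (fun i => tube τ (a i) (e i)) x ^ q ≤
      ENNReal.ofReal (K * C * (τ / δ) * (τ ^ d * (Fintype.card ι : ℝ) ^ (q - 1 / (d : ℝ)))) := by
  obtain ⟨K0, hK0, hcol⟩ := colorE (n := d + 1) (by omega)
  rw [Nat.add_sub_cancel] at hcol
  have hd0 : (0 : ℝ) < d := by exact_mod_cast hd
  have hp0 : 0 < 1 / (d : ℝ) := by positivity
  refine ⟨K0 ^ (1 / (d : ℝ)), Real.one_le_rpow hK0 hp0.le, ?_⟩
  intro C δ τ hC hδ hδ1 hτ hW ι _ a e he hsep
  have hτ0 : 0 < τ := by linarith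
  have hq0 : 0 < q := by linarith
  have hq1 : 1 ≤ q := by linarith
  obtain ⟨D, _, _, κ, hD, hκ⟩ := hcol δ τ hδ hδ1 hτ e he hsep
  set T : ι → Set (E (d + 1)) := fun i => tube τ (a i) (e i) with hT
  have hTm : ∀ i, MeasurableSet (T i) := fun i => tube_meas _ _ _
  set p : ℝ := 1 / (d : ℝ) with hp
  set θ : ℝ := 1 - p / q with hθ
  have hpq : p / q < 1 := by rw [div_lt_one hq0]; linarith
  have hθ0 : 0 < θ := by rw [hθ]; linarith
  have hθ1 : θ ≤ 1 := by
    have : 0 ≤ p / q := by positivity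
    rw [hθ]; linarith
  have hsum : ∀ x, mult T x = ∑ c : D, pmult T κ c x := by
    intro x
    unfold mult pmult
    rw [Finset.sum_comm]
    refine Finset.sum_congr rfl fun i _ => ?_
    rw [Finset.sum_ite_eq, if_pos (Finset.mem_univ _)]
  set n : D → ℝ := fun c => (Fintype.card {i // κ i = c} : ℝ) with hn
  have hn0 : ∀ c, 0 ≤ n c := fun c => by positivity
  have hpart : ∀ c : D, ∫⁻ x, pmult T κ c x ^ q ≤
      ENNReal.ofReal (C * (τ ^ d * n c ^ (q - p))) := by
    intro c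
    simp only [pmult_eq]
    exact hW {i // κ i = c} (fun i => a i) (fun i => e i) (fun i => he i) (fun i j hij =>
        hκ i j (i.2.trans j.2.symm) (fun h => hij (Subtype.ext h)))
  set B : ℝ := C * τ ^ d with hB
  have hB0 : 0 ≤ B := by positivity
  have hpm : ∀ c : D, Measurable fun x => pmult T κ c x := by
    intro c
    simp only [pmult_eq]
    exact mult_meas fun i => hTm _
  have hnsum : ∑ c : D, n c = Fintype.card ι := by
    have h1 := sum_card_parts κ
    rw [← h1]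
    symm
    apply Finset.sum_subset (Finset.subset_univ _)
    intro c _ hc
    have : IsEmpty {i // κ i = c} := by
      constructor
      rintro ⟨i, hi⟩
      exact hc (Finset.mem_image.2 ⟨i, Finset.mem_univ _, hi⟩)
    rw [Fintype.card_eq_zero, Nat.cast_zero]
  have hS : ∑ c : D, n c ^ θ ≤ (Fintype.card D : ℝ) ^ (p / q) * (Fintype.card ι : ℝ) ^ θ := by
    have h1 := Pool.Agent.Y254.EL.sum_rpow_le (Finset.univ : Finset D) hn0 hθ0 hθ1
    rw [hnsum, Finset.card_univ] at h1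
    have h2 : 1 - θ = p / q := by rw [hθ]; ring
    rwa [h2] at h1
  have hroot : (∫⁻ x, mult T x ^ q) ^ (1 / q) ≤ ENNReal.ofReal (B ^ (1 / q) *
      ((Fintype.card D : ℝ) ^ (p / q) * (Fintype.card ι : ℝ) ^ θ)) := by
    simp only [hsum]
    refine (Pool.Agent.Y254.EL.mink volume Finset.univ hpm hq1).trans ?_
    calc ∑ c : D, (∫⁻ x, pmult T κ c x ^ q) ^ (1 / q)
        ≤ ∑ c : D, ENNReal.ofReal (B ^ (1 / q) * n c ^ θ) := by
          apply Finset.sum_le_sum
          intro c _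
          refine (ENNReal.rpow_le_rpow (hpart c) (by positivity)).trans (le_of_eq ?_)
          rw [ENNReal.ofReal_rpow_of_nonneg (by positivity) (by positivity)]
          congr 1
          have h1 : C * (τ ^ d * n c ^ (q - p)) = B * n c ^ (q - p) := by
            rw [hB]; ring
          rw [h1, Real.mul_rpow hB0 (by positivity), ← Real.rpow_mul (hn0 c)]
          congr 2
          rw [hθ]
          field_simp
      _ = ENNReal.ofReal (B ^ (1 / q) * ∑ c : D, n c ^ θ) := by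
          rw [← ENNReal.ofReal_sum_of_nonneg (fun c _ => by positivity), ← Finset.mul_sum]
      _ ≤ _ := by
          apply ENNReal.ofReal_le_ofReal
          gcongr
  have h5 : ∫⁻ x, mult T x ^ q = ((∫⁻ x, mult T x ^ q) ^ (1 / q)) ^ q := by
    rw [← ENNReal.rpow_mul, one_div, inv_mul_cancel₀ hq0.ne', ENNReal.rpow_one]
  rw [h5]
  refine (ENNReal.rpow_le_rpow hroot hq0.le).trans ?_
  rw [ENNReal.ofReal_rpow_of_nonneg (by positivity) hq0.le]
  apply ENNReal.ofReal_le_ofReal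
  have e1 : p / q * q = p := by field_simp
  have e2 : θ * q = q - p := by rw [hθ]; field_simp
  have e3 : (B ^ (1 / q)) ^ q = B := by
    rw [← Real.rpow_mul hB0, one_div, inv_mul_cancel₀ hq0.ne', Real.rpow_one]
  have e4 : ((Fintype.card D : ℝ) ^ (p / q)) ^ q = (Fintype.card D : ℝ) ^ p := by
    rw [← Real.rpow_mul (Nat.cast_nonneg _), e1]
  have e5 : ((Fintype.card ι : ℝ) ^ θ) ^ q = (Fintype.card ι : ℝ) ^ (q - p) := by
    rw [← Real.rpow_mul (Nat.cast_nonneg _), e2]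
  rw [Real.mul_rpow (x := B ^ (1 / q)) (by positivity) (by positivity),
    Real.mul_rpow (x := (Fintype.card D : ℝ) ^ (p / q)) (by positivity) (by positivity), e3, e4, e5]
  have h6 : (Fintype.card D : ℝ) ^ p ≤ K0 ^ p * (τ / δ) := by
    calc (Fintype.card D : ℝ) ^ p ≤ (K0 * (τ / δ) ^ d) ^ p := by gcongr
      _ = K0 ^ p * (τ / δ) := by
          rw [Real.mul_rpow (by linarith) (by positivity), ← Real.rpow_natCast (τ / δ) d,
            ← Real.rpow_mul (by positivity), hp, mul_one_div, div_self hd0.ne', Real.rpow_one]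
  calc B * ((Fintype.card D : ℝ) ^ p * (Fintype.card ι : ℝ) ^ (q - p))
      ≤ B * (K0 ^ p * (τ / δ) * (Fintype.card ι : ℝ) ^ (q - p)) := by gcongr
    _ = _ := by rw [hB]; ring

end Pool.Agent.H160.KD
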