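import Pool.Agent.H160.KD.Up2
set_option autoImplicit false

/-!
# Many separated directions in a cap, and lower bounds for the probabilities
-/

open MeasureTheory Set Metric
open scoped ENNReal NNReal Pointwise

namespace Pool.Agent.H160.KD
open Pool.Agent.Y254 (tube tube_meas tube_closed vol_near vol_tube Cv Cv_pos mult mult_meas mult_le)
open Pool.Agent.TH705.RR (E vb vb_pos vol_cball)
open Pool.Agent.Y254.EL (sg cap_lower)

/-- Many separated points in a cap. -/
theorem capsep (d : ℕ) : ∃ c : ℝ, 0 < c ∧ ∀ (e : sphere (0 : E (d + 1)) 1) (δ r : ℝ), 0 < δ →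
    δ ≤ 1 → 0 < r → r ≤ 1 → ∀ m : ℕ, (m : ℝ) ≤ c * (r / δ) ^ d →
    ∃ f : Fin m → sphere (0 : E (d + 1)) 1, (∀ j, dist (f j) e ≤ r) ∧
      ∀ i j, i ≠ j → δ ≤ dist (f i) (f j) := by
  obtain ⟨κ, hκ, hlow⟩ := cap_lower d
  obtain ⟨C, hC, hcap⟩ := Pool.Agent.W131.HM.CAP d
  refine ⟨κ / C, by positivity, ?_⟩
  intro e δ r hδ hδ1 hr hr1 m
  induction m with
  | zero =>
    intro _
    exact ⟨Fin.elim0, fun j => j.elim0, fun i => i.elim0⟩
  | succ m ih =>
    intro hm
    push_cast at hm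
    obtain ⟨f, hf1, hf2⟩ := ih (by linarith)
    have hlt : sg d (⋃ j ∈ (Finset.univ : Finset (Fin m)), closedBall (f j) δ) <
        sg d (closedBall e r) := by
      calc sg d (⋃ j ∈ (Finset.univ : Finset (Fin m)), closedBall (f j) δ)
          ≤ ∑ j : Fin m, sg d (closedBall (f j) δ) := measure_biUnion_finset_le _ _
        _ ≤ ∑ _j : Fin m, ENNReal.ofReal (C * δ ^ d) := by
            apply Finset.sum_le_sum
            intro j _
            exact hcap (f j) δ hδ hδ1
        _ = ENNReal.ofReal (m * (C * δ ^ d)) := by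
            rw [Finset.sum_const, Finset.card_univ, Fintype.card_fin, nsmul_eq_mul,
              ENNReal.ofReal_mul (p := (m : ℝ)) (by positivity), ENNReal.ofReal_natCast]
        _ < ENNReal.ofReal (κ * r ^ d) := by
            rw [ENNReal.ofReal_lt_ofReal_iff (by positivity)]
            have h1 : κ / C * (r / δ) ^ d * (C * δ ^ d) = κ * r ^ d := by
              rw [div_pow]
              field_simp
            have h2 : 0 < C * δ ^ d := by positivity
            nlinarith
        _ ≤ _ := hlow e r hr hr1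
    obtain ⟨y, hy1, hy2⟩ : ∃ y ∈ closedBall e r,
        y ∉ ⋃ j ∈ (Finset.univ : Finset (Fin m)), closedBall (f j) δ := by
      by_contra hcon
      push Not at hcon
      exact absurd (measure_mono (μ := sg d) (fun y hy => hcon y hy)) (not_le.2 hlt)
    have hy3 : ∀ j, δ < dist y (f j) := by
      intro j
      by_contra hcon
      rw [not_lt] at hcon
      exact hy2 (mem_iUnion₂.2 ⟨j, Finset.mem_univ _, hcon⟩)
    refine ⟨Fin.cons y f, ?_, ?_⟩
    · intro j
      refine Fin.cases ?_ (fun j => ?_) j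
      · rw [Fin.cons_zero]; exact hy1
      · rw [Fin.cons_succ]; exact hf1 j
    · intro i j
      refine Fin.cases ?_ (fun i => ?_) i
      · refine Fin.cases ?_ (fun j => ?_) j
        · intro h; exact absurd rfl h
        · intro _
          rw [Fin.cons_zero, Fin.cons_succ]; exact (hy3 j).le
      · refine Fin.cases ?_ (fun j => ?_) j
        · intro _
          rw [Fin.cons_zero, Fin.cons_succ, dist_comm]; exact (hy3 i).le
        · intro h
          rw [Fin.cons_succ, Fin.cons_succ]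
          exact hf2 i j (fun hij => h (by rw [hij]))

/-- Many separated directions near a direction. -/
theorem subdir (d : ℕ) : ∃ c : ℝ, 0 < c ∧ ∀ (e : E (d + 1)) (δ r : ℝ), ‖e‖ = 1 → 0 < δ →
    δ ≤ 1 → 0 < r → r ≤ 1 → ∀ m : ℕ, (m : ℝ) ≤ c * (r / δ) ^ d →
    ∃ f : Fin m → E (d + 1), (∀ j, ‖f j‖ = 1) ∧ (∀ j, ‖f j - e‖ ≤ r) ∧
      ∀ i j, i ≠ j → δ ≤ ‖f i - f j‖ := by
  obtain ⟨c, hc, h⟩ := capsep d
  refine ⟨c, hc, ?_⟩
  intro e δ r he hδ hδ1 hr hr1 m hm
  obtain ⟨f, hf1, hf2⟩ := h ⟨e, by rw [mem_sphere_zero_iff_norm]; exact he⟩ δ r hδ hδ1 hr hr1 m hm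
  refine ⟨fun j => (f j : E (d + 1)), fun j => by simp, fun j => ?_, fun i j hij => ?_⟩
  · have := hf1 j
    rw [Subtype.dist_eq, dist_eq_norm] at this
    exact this
  · have := hf2 i j hij
    rw [Subtype.dist_eq, dist_eq_norm] at this
    exact this

/-- The volume of a short cylinder. -/
theorem shortcyl (d : ℕ) : ∃ κ : ℝ, 0 < κ ∧ ∀ (p e : E (d + 1)) (h δ : ℝ), ‖e‖ = 1 → 0 < δ →
    δ ≤ 2 * h → ENNReal.ofReal (κ * h * δ ^ d) ≤
      volume {y : E (d + 1) | |inner ℝ (y - p) e| ≤ h ∧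
        ‖(y - p) - (inner ℝ (y - p) e) • e‖ ≤ δ} := by
  obtain ⟨κ, hκ, hV⟩ := Pool.Agent.W131.HM.VOL d
  refine ⟨2 * κ, by positivity, ?_⟩
  intro p e h δ he hδ hδh
  have hh : 0 < h := by linarith
  set s : ℝ := 2 * h with hs
  have hs0 : 0 < s := by positivity
  have h1 := (hV 0 e (δ / s) he (by positivity) (by rw [div_le_one hs0]; exact hδh)).1
  set T : Set (E (d + 1)) := W46.KK.tube (δ / s) 0 e with hT
  have hsub : (fun x => -p + x) ⁻¹' (s • T) ⊆ {y : E (d + 1) | |inner ℝ (y - p) e| ≤ h ∧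
        ‖(y - p) - (inner ℝ (y - p) e) • e‖ ≤ δ} := by
    rintro y ⟨t, ht, hty⟩
    have ht' : |inner ℝ (t - 0) e| ≤ 1 / 2 ∧ ‖(t - 0) - (inner ℝ (t - 0) e) • e‖ ≤ δ / s := ht
    obtain ⟨h2, h3⟩ := ht'
    rw [sub_zero] at h2 h3
    have hyp : y - p = s • t := by
      have : s • t = -p + y := hty
      rw [this]; abel
    change |inner ℝ (y - p) e| ≤ h ∧ ‖(y - p) - (inner ℝ (y - p) e) • e‖ ≤ δ
    rw [hyp]
    have h4 : (inner ℝ (s • t) e : ℝ) = s * inner ℝ t e := by
      rw [inner_smul_left]; simp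
    rw [h4]
    refine ⟨?_, ?_⟩
    · rw [abs_mul, abs_of_pos hs0]
      nlinarith
    · rw [mul_smul s (inner ℝ t e : ℝ) e, ← smul_sub, norm_smul, Real.norm_eq_abs, abs_of_pos hs0]
      calc s * ‖t - (inner ℝ t e : ℝ) • e‖ ≤ s * (δ / s) := by gcongr
        _ = δ := by field_simp
  refine le_trans ?_ (measure_mono hsub)
  rw [measure_preimage_add, Measure.addHaar_smul, finrank_euclideanSpace_fin,
    abs_of_pos (by positivity)]
  refine le_trans ?_ (mul_le_mul_right h1 _)
  rw [← ENNReal.ofReal_mul (by positivity)]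
  apply ENNReal.ofReal_le_ofReal
  apply le_of_eq
  rw [div_pow, hs, pow_succ]
  field_simp

/-- Lower bound for the mean density, in a ball of radius `16 η` around a point of a tube of radius
`η`, of a thin tube of a neighbouring direction which was moved by at most `8 η`. -/
theorem ev_ge (d : ℕ) : ∃ c : ℝ, 0 < c ∧ ∀ (a e f x u : E (d + 1)) (δ η : ℝ), ‖e‖ = 1 → ‖f‖ = 1 →
    0 < δ → δ ≤ η → η ≤ 1 / 8 → ‖f - e‖ ≤ η → ‖u‖ ≤ 8 * η → x ∈ tube η a e →
    ENNReal.ofReal (c * (δ / (16 * η)) ^ d) ≤ unif (d + 1) (16 * η) (ev δ (a + u) f x) := by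
  obtain ⟨κ, hκ, hcyl⟩ := shortcyl d
  have hv := vb_pos (d + 1)
  refine ⟨κ / (16 * vb (d + 1)), by positivity, ?_⟩
  intro a e f x u δ η he hf hδ hδη hη8 hfe hu hx
  have hη : 0 < η := by linarith
  obtain ⟨hx1, hx2⟩ := hx
  set s : ℝ := inner ℝ (x - a) e with hs
  rw [abs_le] at hx1
  -- the centre of the piece
  obtain ⟨t, ht1, ht2, ht3⟩ : ∃ t : ℝ, |t - s| ≤ η ∧ -(1 / 2) ≤ t - η ∧ t + η ≤ 1 / 2 := by
    rcases le_total 0 s with h0 | h0
    · refine ⟨s - η, ?_, by linarith, by linarith⟩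
      rw [show s - η - s = -η by ring, abs_neg, abs_of_pos hη]
    · refine ⟨s + η, ?_, by linarith, by linarith⟩
      rw [show s + η - s = η by ring, abs_of_pos hη]
  set p : E (d + 1) := (a + u) + t • f with hp
  have hsub : {y : E (d + 1) | |inner ℝ (y - p) f| ≤ η ∧
        ‖(y - p) - (inner ℝ (y - p) f) • f‖ ≤ δ} ⊆
      {y | y ∈ tube δ (a + u) f ∧ ‖y - x‖ ≤ 16 * η} := by
    rintro y ⟨hy1, hy2⟩
    have hya : y - (a + u) = (y - p) + t • f := by rw [hp]; abel
    have hin : (inner ℝ (y - (a + u)) f : ℝ) = inner ℝ (y - p) f + t := by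
      rw [hya, inner_add_left, inner_smul_left, real_inner_self_eq_norm_sq, hf]
      simp
    refine ⟨⟨?_, ?_⟩, ?_⟩
    · rw [hin]
      rw [abs_le] at hy1 ⊢
      constructor <;> linarith
    · have h6 : (y - (a + u)) - (inner ℝ (y - (a + u)) f : ℝ) • f =
          (y - p) - (inner ℝ (y - p) f : ℝ) • f := by
        rw [hin, hya, add_smul]; abel
      rw [h6]; exact hy2
    · have h7 : ‖y - p‖ ≤ η + δ := by
        have h8 : y - p = ((y - p) - (inner ℝ (y - p) f : ℝ) • f) + (inner ℝ (y - p) f : ℝ) • f := by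
          abel
        rw [h8]
        refine (norm_add_le _ _).trans ?_
        rw [norm_smul, hf, mul_one, Real.norm_eq_abs]
        linarith
      have h9 : ‖p - x‖ ≤ 11 * η := by
        have h10 : p - x = u + ((t - s) • f + s • (f - e) - ((x - a) - s • e)) := by
          rw [hp, sub_smul, smul_sub]; abel
        rw [h10]
        refine (norm_add_le _ _).trans ?_
        have h15 : ‖(t - s) • f + s • (f - e) - ((x - a) - s • e)‖ ≤
            ‖(t - s) • f + s • (f - e)‖ + ‖(x - a) - s • e‖ := norm_sub_le _ _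
        have h11 : ‖(t - s) • f + s • (f - e)‖ ≤ η + 1 / 2 * η := by
          refine (norm_add_le _ _).trans ?_
          rw [norm_smul, norm_smul, hf, mul_one, Real.norm_eq_abs, Real.norm_eq_abs]
          have h12 : |s| ≤ 1 / 2 := abs_le.2 hx1
          have h13 : |s| * ‖f - e‖ ≤ 1 / 2 * η := by gcongr
          linarith
        linarith
      have h14 : y - x = (y - p) + (p - x) := by abel
      rw [h14]
      refine (norm_add_le _ _).trans ?_
      linarith
  rw [ev_vol, vol_cball _ (by positivity : (0:ℝ) ≤ 16 * η),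
    ← ENNReal.ofReal_inv_of_pos (by positivity)]
  refine le_trans ?_ (mul_le_mul_right ((hcyl p f η δ hf hδ (by linarith)).trans
    (measure_mono hsub)) _)
  rw [← ENNReal.ofReal_mul (by positivity)]
  apply ENNReal.ofReal_le_ofReal
  apply le_of_eq
  rw [div_pow, pow_succ]
  field_simp

end Pool.Agent.H160.KD
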