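import Pool.Agent.H160.KD.Dir
set_option autoImplicit false

/-!
# From the displaced tubes back to the worst case
-/

open MeasureTheory Set Metric
open scoped ENNReal NNReal

namespace Pool.Agent.H160.KD
open Pool.Agent.Y254 (tube tube_meas tube_closed vol_near vol_tube Cv Cv_pos mult mult_meas mult_le)
open Pool.Agent.TH705.RR (E vb vb_pos vol_cball)

/-- The inequality at the scale `δ` (in `q`-th powers), with the constant `C`, after moving every
tube by a suitable vector of length at most `ρ`. -/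
def MovC (d : ℕ) (q δ ρ C : ℝ) : Prop := ∀ (ι : Type) [Fintype ι]
    (a e : ι → E (d + 1)), (∀ i, ‖e i‖ = 1) →
    (∀ i j, i ≠ j → δ ≤ ‖e i - e j‖) → ∃ u : ι → E (d + 1), (∀ i, ‖u i‖ ≤ ρ) ∧
    ∫⁻ x, mult (fun i => tube δ (a i + u i) (e i)) x ^ q ≤
      ENNReal.ofReal (C * (δ ^ d * (Fintype.card ι : ℝ) ^ (q - 1 / (d : ℝ))))

/-- Some displacement is at least as good as the average. -/
theorem mov_of_typ {d : ℕ} {q δ ρ C : ℝ} (hρ : 0 < ρ) (h : TypC d q δ ρ C) : MovC d q δ ρ C := by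
  intro ι _ a e he hsep
  have := unif_prob (d + 1) hρ
  have h1 := h ι a e he hsep
  set P : Measure (ι → E (d + 1)) := Measure.pi fun _ : ι => unif (d + 1) ρ with hP
  have hnull : P {u | ¬ ∀ i, ‖u i‖ ≤ ρ} = 0 := by
    have h2 : {u : ι → E (d + 1) | ¬ ∀ i, ‖u i‖ ≤ ρ} =
        ⋃ i, (fun u : ι → E (d + 1) => u i) ⁻¹' (closedBall (0 : E (d + 1)) ρ)ᶜ := by
      ext u
      simp
    rw [h2, measure_iUnion_null_iff]
    intro i
    have h3 := (measurePreserving_eval (fun _ : ι => unif (d + 1) ρ) i).measure_preimage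
      (s := (closedBall (0 : E (d + 1)) ρ)ᶜ) measurableSet_closedBall.compl.nullMeasurableSet
    rw [hP]
    refine h3.trans ?_
    unfold unif
    rw [Measure.smul_apply, Measure.restrict_apply measurableSet_closedBall.compl,
      Set.compl_inter_self, measure_empty, smul_zero]
  obtain ⟨u, hu1, hu2⟩ := exists_notMem_null_le_lintegral (μ := P)
    (f := fun u : ι → E (d + 1) => ∫⁻ x, mult (fun i => tube δ (a i + u i) (e i)) x ^ q)
    (((mult_joint δ a e).pow_const q).lintegral_prod_right').aemeasurable hnull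
  refine ⟨u, ?_, hu2.trans h1⟩
  by_contra hcon
  exact hu1 hcon

/-- The local averages of the multiplicity are at most the multiplicity in `L^q`. -/
theorem mean_common {n : ℕ} {q : ℝ} (hq : 1 ≤ q) {ι : Type} [Fintype ι] {ρ : ℝ} (hρ : 0 < ρ)
    (δ : ℝ) (a e : ι → E n) :
    ∫⁻ x, (∑ i, unif n ρ (ev δ (a i) (e i) x)) ^ q ≤
      ∫⁻ x, mult (fun i => tube δ (a i) (e i)) x ^ q := by
  have := unif_prob n hρ
  set F : E n → ℝ≥0∞ := mult (fun i => tube δ (a i) (e i)) with hF
  have hFm : Measurable F := mult_meas fun i => tube_meas _ _ _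
  have h1 : ∀ x, ∑ i, unif n ρ (ev δ (a i) (e i) x) = ∫⁻ w, F (x - w) ∂(unif n ρ) := by
    intro x
    have h2 : ∀ w, F (x - w) = ∑ i, (ev δ (a i) (e i) x).indicator (1 : E n → ℝ≥0∞) w := by
      intro w
      rw [hF]
      unfold mult
      refine Finset.sum_congr rfl fun i _ => ?_
      by_cases hx : x - w ∈ tube δ (a i) (e i)
      · have hx' : w ∈ ev δ (a i) (e i) x := by
          change x ∈ tube δ (a i + w) (e i)
          rw [mem_shift]; exact hx
        rw [indicator_of_mem hx, indicator_of_mem hx']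
        rfl
      · have hx' : w ∉ ev δ (a i) (e i) x := by
          intro h
          apply hx
          have h' : x ∈ tube δ (a i + w) (e i) := h
          rwa [mem_shift] at h'
        rw [indicator_of_notMem hx, indicator_of_notMem hx']
    simp only [h2]
    have h0 : ∀ i ∈ (Finset.univ : Finset ι), Measurable fun w =>
        (ev δ (a i) (e i) x).indicator (1 : E n → ℝ≥0∞) w := fun i _ =>
      measurable_one.indicator (ev_meas δ (a i) (e i) x)
    rw [lintegral_finsetSum _ h0]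
    refine Finset.sum_congr rfl fun i _ => ?_
    rw [lintegral_indicator_one (ev_meas δ (a i) (e i) x)]
  simp only [h1]
  calc ∫⁻ x, (∫⁻ w, F (x - w) ∂(unif n ρ)) ^ q ≤ ∫⁻ x, (∫⁻ w, F (x - w) ^ q ∂(unif n ρ)) := by
        apply lintegral_mono
        intro x
        exact jensen (unif n ρ) (hFm.comp (measurable_const.sub measurable_id)) hq
    _ = ∫⁻ w, (∫⁻ x, F (x - w) ^ q) ∂(unif n ρ) := by
        apply lintegral_lintegral_swap
        exact ((hFm.comp (measurable_fst.sub measurable_snd)).pow_const q).aemeasurable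
    _ = ∫⁻ _w, (∫⁻ x, F x ^ q) ∂(unif n ρ) := by
        refine lintegral_congr fun w => ?_
        exact lintegral_sub_right_eq_self (fun x => F x ^ q) w
    _ = _ := by rw [lintegral_const, measure_univ, mul_one]

/-- The lower bound at fixed scales. -/
theorem lower {d : ℕ} (hd : 1 ≤ d) {q : ℝ} (hq : 1 + 1 / (d : ℝ) ≤ q) : ∃ K L : ℝ, 0 < K ∧ 4 ≤ L ∧
    ∀ S δ η : ℝ, 0 ≤ S → 0 < δ → η ≤ 1 / 8 → L ≤ η / δ → MovC d q δ (8 * η) S →
      WorstC d q η (K * S * (η / δ) ^ ((d : ℝ) * q - d - 1)) := by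
  obtain ⟨c1, hc1, hsub⟩ := subdir d
  obtain ⟨c2, hc2, hev⟩ := ev_ge d
  have hd0 : (0 : ℝ) < d := by exact_mod_cast hd
  have hp0 : 0 < 1 / (d : ℝ) := by positivity
  have hq1 : 1 ≤ q := by linarith
  have hq0 : 0 < q := by linarith
  set p : ℝ := 1 / (d : ℝ) with hp
  have hqp : 0 < q - p := by linarith
  -- the constants
  set c3 : ℝ := c1 * (1 / 4) ^ d / 2 * (c2 * (1 / 16) ^ d) with hc3
  have hc3p : 0 < c3 := by positivity
  set L : ℝ := max 4 (4 * (1 / c1) ^ p) with hL
  refine ⟨(c1 * (1 / 4) ^ d) ^ (q - p) / c3 ^ q, L, by positivity, le_max_left _ _, ?_⟩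
  intro S δ η hS hδ hη8 hLη hT ι _ a e he hsep
  have hη : 0 < η := by
    have h1 : 0 < η / δ := by
      have : (4 : ℝ) ≤ L := le_max_left _ _
      linarith
    by_contra hcon
    rw [not_lt] at hcon
    exact absurd (div_nonpos_of_nonpos_of_nonneg hcon hδ.le) (not_le.2 h1)
  have h4 : 4 * δ ≤ η := by
    have h1 : 4 ≤ η / δ := (le_max_left _ _).trans hLη
    rwa [le_div_iff₀ hδ] at h1
  -- the number of sub-directions
  set z : ℝ := c1 * (η / 4 / δ) ^ d with hz
  have hz1 : 1 ≤ z := by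
    have h1 : (1 / c1) ^ p ≤ η / 4 / δ := by
      have h2 : 4 * (1 / c1) ^ p ≤ η / δ := (le_max_right _ _).trans hLη
      have h3 : η / 4 / δ = (η / δ) / 4 := by ring
      rw [h3, le_div_iff₀ (by norm_num)]
      linarith
    have h2 : 1 / c1 ≤ (η / 4 / δ) ^ d := by
      calc 1 / c1 = ((1 / c1) ^ p) ^ d := by
            rw [← Real.rpow_natCast, ← Real.rpow_mul (by positivity), hp, one_div_mul_cancel hd0.ne',
              Real.rpow_one]
        _ ≤ _ := by gcongr
    rw [hz]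
    rw [div_le_iff₀ hc1] at h2
    linarith
  set m : ℕ := ⌊z⌋₊ with hm
  have hmz : (m : ℝ) ≤ z := Nat.floor_le (by linarith)
  have hmz2 : z / 2 ≤ m := by
    have h1 := Nat.lt_floor_add_one z
    have h2 : (1 : ℝ) ≤ m := by
      have : 1 ≤ ⌊z⌋₊ := Nat.le_floor (by exact_mod_cast hz1)
      exact_mod_cast this
    linarith
  have hm1 : (1 : ℝ) ≤ m := by
    have : 1 ≤ ⌊z⌋₊ := Nat.le_floor (by exact_mod_cast hz1)
    exact_mod_cast this
  -- the sub-directions
  have hf : ∀ i, ∃ f : Fin m → E (d + 1), (∀ j, ‖f j‖ = 1) ∧ (∀ j, ‖f j - e i‖ ≤ η / 4) ∧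
      ∀ j k, j ≠ k → δ ≤ ‖f j - f k‖ := fun i =>
    hsub (e i) δ (η / 4) (he i) hδ (by linarith) (by positivity) (by linarith) m hmz
  choose f hf1 hf2 hf3 using hf
  have hsep' : ∀ x y : ι × Fin m, x ≠ y → δ ≤ ‖f x.1 x.2 - f y.1 y.2‖ := by
    rintro ⟨i, j⟩ ⟨i', j'⟩ hne
    by_cases hii : i = i'
    · subst hii
      exact hf3 i j j' (fun h => hne (by rw [h]))
    · have h1 := hsep i i' hii
      have h2 := hf2 i j
      have h3 := hf2 i' j'
      have h5 : ‖e i - e i'‖ ≤ ‖f i j - e i‖ + ‖f i j - f i' j'‖ + ‖f i' j' - e i'‖ := by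
        have h6 : e i - e i' = -(f i j - e i) + (f i j - f i' j') + (f i' j' - e i') := by abel
        rw [h6]
        refine (norm_add_le _ _).trans ?_
        gcongr
        refine (norm_add_le _ _).trans ?_
        rw [norm_neg]
      dsimp only
      linarith
  obtain ⟨u, hu, hTy⟩ :=
    hT (ι × Fin m) (fun x => a x.1) (fun x => f x.1 x.2) (fun x => hf1 x.1 x.2) hsep'
  have hρ : 0 < 16 * η := by positivity
  have hml := (mean_common hq1 hρ δ (fun x : ι × Fin m => a x.1 + u x)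
    (fun x => f x.1 x.2)).trans hTy
  -- the mean multiplicity dominates the multiplicity of the thick tubes
  set T : ι → Set (E (d + 1)) := fun i => tube η (a i) (e i) with hTdef
  set w : ℝ := m * (c2 * (δ / (16 * η)) ^ d) with hw
  have hw0 : 0 < w := by
    have : (0 : ℝ) < m := by linarith
    positivity
  have hdom : ∀ x, ENNReal.ofReal w * mult T x ≤
      ∑ y : ι × Fin m, unif (d + 1) (16 * η) (ev δ (a y.1 + u y) (f y.1 y.2) x) := by
    intro x
    rw [Fintype.sum_prod_type]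
    unfold mult
    rw [Finset.mul_sum]
    apply Finset.sum_le_sum
    intro i _
    by_cases hx : x ∈ T i
    · rw [indicator_of_mem hx]
      calc ENNReal.ofReal w * (1 : E (d + 1) → ℝ≥0∞) x
          = ∑ _j : Fin m, ENNReal.ofReal (c2 * (δ / (16 * η)) ^ d) := by
            rw [Finset.sum_const, Finset.card_univ, Fintype.card_fin, nsmul_eq_mul, hw,
              ENNReal.ofReal_mul (p := (m : ℝ)) (by positivity), ENNReal.ofReal_natCast,
              Pi.one_apply, mul_one]
        _ ≤ _ := by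
            apply Finset.sum_le_sum
            intro j _
            exact hev (a i) (e i) (f i j) x (u (i, j)) δ η (he i) (hf1 i j) hδ (by linarith) hη8
              ((hf2 i j).trans (by linarith)) (hu (i, j)) hx
    · rw [indicator_of_notMem hx, mul_zero]
      exact zero_le
  set N : ℝ := (Fintype.card ι : ℝ) with hN
  have hcard : ((Fintype.card (ι × Fin m) : ℕ) : ℝ) = N * m := by
    rw [Fintype.card_prod, Fintype.card_fin]
    push_cast
    rfl
  rw [hcard] at hml
  have h5 : ENNReal.ofReal w ^ q * ∫⁻ x, mult T x ^ q ≤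
      ENNReal.ofReal (S * (δ ^ d * (N * m) ^ (q - p))) := by
    refine le_trans ?_ hml
    rw [← lintegral_const_mul _ ((mult_meas fun i => tube_meas _ _ _).pow_const q)]
    apply lintegral_mono
    intro x
    dsimp only
    rw [← ENNReal.mul_rpow_of_nonneg _ _ hq0.le]
    exact ENNReal.rpow_le_rpow (hdom x) hq0.le
  -- conclusion
  have hwc : c3 ≤ w := by
    have e1 : c3 = z / 2 * (c2 * (δ / (16 * η)) ^ d) := by
      have e0 : (η / 4 / δ) ^ d * (δ / (16 * η)) ^ d = (1 / 4) ^ d * (1 / 16) ^ d := by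
        rw [← mul_pow, ← mul_pow]
        congr 1
        field_simp
      rw [hc3, hz]
      linear_combination (-(c1 * c2 / 2)) * e0
    rw [e1, hw]
    gcongr
  have hwq : c3 ^ q ≤ w ^ q := Real.rpow_le_rpow hc3p.le hwc hq0.le
  have h6 : ∫⁻ x, mult T x ^ q ≤ ENNReal.ofReal (S * (δ ^ d * (N * m) ^ (q - p)) / c3 ^ q) := by
    rw [ENNReal.ofReal_div_of_pos (by positivity)]
    rw [ENNReal.le_div_iff_mul_le (Or.inl (ENNReal.ofReal_pos.2 (by positivity)).ne')
      (Or.inl ENNReal.ofReal_ne_top), mul_comm]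
    refine le_trans ?_ h5
    gcongr
    rw [ENNReal.ofReal_rpow_of_nonneg hw0.le hq0.le]
    exact ENNReal.ofReal_le_ofReal hwq
  refine h6.trans (ENNReal.ofReal_le_ofReal ?_)
  have hN0 : 0 ≤ N := by positivity
  have h7 : (N * m) ^ (q - p) ≤ N ^ (q - p) * z ^ (q - p) := by
    rw [← Real.mul_rpow hN0 (by positivity)]
    gcongr
  have h8 : z ^ (q - p) = (c1 * (1 / 4) ^ d) ^ (q - p) * (η / δ) ^ ((d : ℝ) * q - 1) := by
    have e1 : z = (c1 * (1 / 4) ^ d) * (η / δ) ^ (d : ℝ) := by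
      rw [hz, Real.rpow_natCast, mul_assoc, ← mul_pow]
      congr 2
      ring
    rw [e1, Real.mul_rpow (by positivity) (by positivity), ← Real.rpow_mul (by positivity)]
    congr 2
    rw [hp]
    field_simp
  have h9 : δ ^ d * (η / δ) ^ ((d : ℝ) * q - 1) = (η / δ) ^ ((d : ℝ) * q - d - 1) * η ^ d := by
    have hpos : 0 < η / δ := by positivity
    have e1 : (η / δ) ^ ((d : ℝ) * q - 1) = (η / δ) ^ ((d : ℝ) * q - d - 1) * (η / δ) ^ d := by
      rw [← Real.rpow_natCast (η / δ) d, ← Real.rpow_add hpos]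
      congr 1
      ring
    rw [e1, div_pow]
    field_simp
  calc S * (δ ^ d * (N * m) ^ (q - p)) / c3 ^ q
      ≤ S * (δ ^ d * (N ^ (q - p) * z ^ (q - p))) / c3 ^ q := by gcongr
    _ = (c1 * (1 / 4) ^ d) ^ (q - p) / c3 ^ q * S * (δ ^ d * (η / δ) ^ ((d : ℝ) * q - 1)) *
        N ^ (q - p) := by rw [h8]; ring
    _ = _ := by rw [h9]; ring

/-- The trivial bound. -/
theorem triv {d : ℕ} (hd : 1 ≤ d) {q : ℝ} (hq : 1 + 1 / (d : ℝ) ≤ q) : ∃ K : ℝ, 0 < K ∧
    ∀ δ : ℝ, 0 < δ → δ < 1 → WorstC d q δ (K * δ⁻¹) := by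
  obtain ⟨K0, hK0, hcnt⟩ := dircount (n := d + 1) (by omega)
  have hd0 : (0 : ℝ) < d := by exact_mod_cast hd
  have hp0 : 0 < 1 / (d : ℝ) := by positivity
  have hCv := Cv_pos (d + 1)
  set p : ℝ := 1 / (d : ℝ) with hp
  refine ⟨Cv (d + 1) * 2 * K0 ^ p, by positivity, ?_⟩
  intro δ hδ hδ1 ι _ a e he hsep
  have h1 := Pool.Agent.Y254.EL.triv_bound (q := q) (by linarith) hδ hδ1 a e he
  refine le_trans h1 (ENNReal.ofReal_le_ofReal ?_)
  have hNc := hcnt δ hδ hδ1 e he hsep
  rw [Nat.add_sub_cancel] at hNc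
  set N : ℝ := (Fintype.card ι : ℝ) with hN
  have hN0 : 0 ≤ N := by positivity
  rcases eq_or_lt_of_le hN0 with h0 | h0
  · rw [← h0, zero_mul, mul_zero, Real.zero_rpow (by linarith), mul_zero, mul_zero]
  have h2 : N ^ (q - 1) * N = N ^ (q - p) * N ^ p := by
    rw [← Real.rpow_add h0]
    conv_lhs => rw [← Real.rpow_one N, ← Real.rpow_mul hN0, one_mul]
    rw [← Real.rpow_add h0]
    congr 1
    ring
  have hdp : (d : ℝ) * p = 1 := by rw [hp]; exact mul_one_div_cancel hd0.ne'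
  have h3 : N ^ p ≤ K0 ^ p * δ⁻¹ := by
    calc N ^ p ≤ (K0 * (1 / δ) ^ d) ^ p := by gcongr
      _ = _ := by
        rw [Real.mul_rpow (by linarith) (by positivity), ← Real.rpow_natCast (1 / δ) d,
          ← Real.rpow_mul (by positivity), hdp, Real.rpow_one, one_div δ]
  calc N ^ (q - 1) * (N * (Cv (d + 1) * 2 * δ ^ d))
      = (N ^ (q - 1) * N) * (Cv (d + 1) * 2 * δ ^ d) := by ring
    _ = N ^ (q - p) * N ^ p * (Cv (d + 1) * 2 * δ ^ d) := by rw [h2]
    _ ≤ N ^ (q - p) * (K0 ^ p * δ⁻¹) * (Cv (d + 1) * 2 * δ ^ d) := by gcongr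
    _ = _ := by ring

end Pool.Agent.H160.KD
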