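import Pool.Agent.H160.KD.Fin
set_option autoImplicit false

/-!
# Smaller exponents, with a loss
-/

open MeasureTheory Set Metric
open scoped ENNReal NNReal

namespace Pool.Agent.H160.KD
open Pool.Agent.Y254 (tube tube_meas mult mult_meas mult_zero_or)
open Pool.Agent.TH705.RR (E)

/-- The inequality for an exponent gives the inequality for the smaller exponents, with a loss. -/
theorem endp {d : ℕ} {q q' σ : ℝ} (hq' : 1 + 1 / (d : ℝ) ≤ q') (hqq : q' ≤ q)
    (h : ∃ C : ℝ, 0 < C ∧ ∀ δ : ℝ, 0 < δ → δ < 1 → WorstC d q δ (C * δ ^ (-σ))) :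
    ∃ C : ℝ, 0 < C ∧ ∀ δ : ℝ, 0 < δ → δ < 1 →
      WorstC d q' δ (C * δ ^ (-(σ + d * (q - q')))) := by
  obtain ⟨K0, hK0, hcnt⟩ := dircount (n := d + 1) (by omega)
  obtain ⟨C, hC, h⟩ := h
  have hp0 : 0 ≤ 1 / (d : ℝ) := by positivity
  have hq'0 : 0 < q' := by linarith
  set p : ℝ := 1 / (d : ℝ) with hp
  refine ⟨C * K0 ^ (q - q'), by positivity, ?_⟩
  intro δ hδ hδ1 ι _ a e he hsep
  have hNc := hcnt δ hδ hδ1 e he hsep
  rw [Nat.add_sub_cancel] at hNc
  set N : ℝ := (Fintype.card ι : ℝ) with hN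
  have hN0 : 0 ≤ N := by positivity
  rcases isEmpty_or_nonempty ι with hemp | hne
  · have h1 : ∀ x, mult (fun i => tube δ (a i) (e i)) x ^ q' = 0 := by
      intro x
      unfold mult
      rw [Finset.univ_eq_empty, Finset.sum_empty, ENNReal.zero_rpow_of_pos hq'0]
    simp only [h1, lintegral_zero]
    exact zero_le
  refine (lintegral_mono fun x => ?_).trans ((h δ hδ hδ1 ι a e he hsep).trans ?_)
  · dsimp only
    rcases mult_zero_or (fun i => tube δ (a i) (e i)) x with h1 | h1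
    · rw [h1, ENNReal.zero_rpow_of_pos hq'0]
      exact zero_le
    · exact ENNReal.rpow_le_rpow_of_exponent_le h1 hqq
  · apply ENNReal.ofReal_le_ofReal
    have h0 : 0 < N := by
      rw [hN]; exact_mod_cast Fintype.card_pos
    have e1 : N ^ (q - p) = N ^ (q' - p) * N ^ (q - q') := by
      rw [← Real.rpow_add h0]
      congr 1
      ring
    have e2 : N ^ (q - q') ≤ K0 ^ (q - q') * δ ^ (-((d : ℝ) * (q - q'))) := by
      calc N ^ (q - q') ≤ (K0 * (1 / δ) ^ d) ^ (q - q') := by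
            apply Real.rpow_le_rpow hN0 hNc (by linarith)
        _ = _ := by
            rw [Real.mul_rpow (by linarith) (by positivity), ← Real.rpow_natCast (1 / δ) d,
              ← Real.rpow_mul (by positivity), one_div, Real.inv_rpow hδ.le, Real.rpow_neg hδ.le]
    have e3 : δ ^ (-(σ + d * (q - q'))) = δ ^ (-σ) * δ ^ (-((d : ℝ) * (q - q'))) := by
      rw [← Real.rpow_add hδ]
      congr 1
      ring
    rw [e1, e3]
    calc C * δ ^ (-σ) * (δ ^ d * (N ^ (q' - p) * N ^ (q - q')))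
        ≤ C * δ ^ (-σ) * (δ ^ d * (N ^ (q' - p) *
          (K0 ^ (q - q') * δ ^ (-((d : ℝ) * (q - q')))))) := by gcongr
      _ = _ := by ring

end Pool.Agent.H160.KD
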