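import Pool.Agent.H160.KD.Down
set_option autoImplicit false

/-!
# The exponents of the losses
-/

open MeasureTheory Set Metric
open scoped ENNReal NNReal

namespace Pool.Agent.H160.KD
open Pool.Agent.Y254 (tube tube_meas tube_closed vol_near vol_tube Cv Cv_pos mult mult_meas mult_le
  lint_mult)
open Pool.Agent.TH705.RR (E vb vb_pos vol_cball)

theorem worst_mono {d : ℕ} {q δ C C' : ℝ} (hδ : 0 ≤ δ) (hC : C ≤ C') (h : WorstC d q δ C) :
    WorstC d q δ C' := by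
  intro ι _ a e he hsep
  refine (h ι a e he hsep).trans (ENNReal.ofReal_le_ofReal ?_)
  gcongr

theorem typ_mono {d : ℕ} {q δ ρ C C' : ℝ} (hδ : 0 ≤ δ) (hC : C ≤ C') (h : TypC d q δ ρ C) :
    TypC d q δ ρ C' := by
  intro ι _ a e he hsep
  refine (h ι a e he hsep).trans (ENNReal.ofReal_le_ofReal ?_)
  gcongr

/-- From the worst case to the average. -/
theorem up_exp {d : ℕ} (hd : 1 ≤ d) {q : ℝ} (hq : 1 + 1 / (d : ℝ) ≤ q) {σ : ℝ} (hσ : 0 ≤ σ)
    (h : ∃ C : ℝ, 0 < C ∧ ∀ δ : ℝ, 0 < δ → δ < 1 → WorstC d q δ (C * δ ^ (-σ))) :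
    ∃ C : ℝ, 0 < C ∧ ∀ δ ρ : ℝ, 0 < δ → δ < 1 → δ ≤ ρ →
      TypC d q δ ρ (C * (1 + ρ ^ (-σ) * (δ / ρ) ^ ((d : ℝ) * q - d - 1))) := by
  obtain ⟨C, hC, hW⟩ := h
  obtain ⟨K, hK, hup⟩ := upper hd hq
  obtain ⟨K', hK', hup'⟩ := upper_big hd hq
  refine ⟨K * (1 + C) + K', by positivity, ?_⟩
  intro δ ρ hδ hδ1 hδρ
  have hρ : 0 < ρ := by linarith
  set g : ℝ := (δ / ρ) ^ ((d : ℝ) * q - d - 1) with hg
  have hg0 : 0 ≤ g := by positivity
  have hs0 : 0 < ρ ^ (-σ) := by positivity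
  rcases lt_or_ge ρ (1 / 2) with h2 | h2
  · have h1 := hup (C * (2 * ρ) ^ (-σ)) δ ρ (by positivity) hδ hδ1 hδρ h2
      (hW (2 * ρ) (by positivity) (by linarith))
    refine typ_mono hδ.le ?_ h1
    have h3 : (2 * ρ) ^ (-σ) ≤ ρ ^ (-σ) := by
      rw [Real.mul_rpow (by norm_num) hρ.le]
      have : (2 : ℝ) ^ (-σ) ≤ 1 := Real.rpow_le_one_of_one_le_of_nonpos (by norm_num) (by linarith)
      nlinarith
    calc K * (1 + C * (2 * ρ) ^ (-σ) * g) ≤ K * (1 + C * ρ ^ (-σ) * g) := by gcongr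
      _ ≤ K * ((1 + C) * (1 + ρ ^ (-σ) * g)) := by
          refine mul_le_mul_of_nonneg_left ?_ hK.le
          have h5 : 0 ≤ ρ ^ (-σ) * g := by positivity
          nlinarith
      _ ≤ (K * (1 + C) + K') * (1 + ρ ^ (-σ) * g) := by
          have h5 : 0 ≤ K' * (1 + ρ ^ (-σ) * g) := by positivity
          nlinarith
  · refine typ_mono hδ.le ?_ (hup' δ ρ hδ hδ1 h2)
    have h5 : 0 ≤ ρ ^ (-σ) * g := by positivity
    have h6 : 0 < K * (1 + C) := by positivity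
    nlinarith [mul_nonneg h6.le h5, mul_nonneg hK'.le h5]

/-- From the worst case to the average, at the scale `δ ^ β`. -/
theorem up_beta {d : ℕ} (hd : 1 ≤ d) {q : ℝ} (hq : 1 + 1 / (d : ℝ) ≤ q) {σ β : ℝ} (hσ : 0 ≤ σ)
    (hβ0 : 0 < β) (hβ1 : β < 1)
    (h : ∃ C : ℝ, 0 < C ∧ ∀ δ : ℝ, 0 < δ → δ < 1 → WorstC d q δ (C * δ ^ (-σ))) {τ : ℝ}
    (hτ : 0 ≤ τ) (hτσ : β * σ - (1 - β) * ((d : ℝ) * q - d - 1) ≤ τ) :
    ∃ C : ℝ, 0 < C ∧ ∀ δ : ℝ, 0 < δ → δ < 1 → TypC d q δ (δ ^ β) (C * δ ^ (-τ)) := by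
  obtain ⟨C, hC, hT⟩ := up_exp hd hq hσ h
  refine ⟨C * 2, by positivity, ?_⟩
  intro δ hδ hδ1
  have hρ : δ ≤ δ ^ β := by
    calc δ = δ ^ (1 : ℝ) := (Real.rpow_one δ).symm
      _ ≤ δ ^ β := Real.rpow_le_rpow_of_exponent_ge hδ hδ1.le hβ1.le
  refine typ_mono hδ.le ?_ (hT δ (δ ^ β) hδ hδ1 hρ)
  have h1 : (δ ^ β) ^ (-σ) * (δ / δ ^ β) ^ ((d : ℝ) * q - d - 1) =
      δ ^ (-(β * σ - (1 - β) * ((d : ℝ) * q - d - 1))) := by
    have e1 : δ / δ ^ β = δ ^ (1 - β) := by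
      rw [Real.rpow_sub hδ, Real.rpow_one]
    rw [e1, ← Real.rpow_mul hδ.le, ← Real.rpow_mul hδ.le, ← Real.rpow_add hδ]
    congr 1
    ring
  rw [h1, mul_assoc]
  refine mul_le_mul_of_nonneg_left ?_ hC.le
  have h2 : δ ^ (-(β * σ - (1 - β) * ((d : ℝ) * q - d - 1))) ≤ δ ^ (-τ) :=
    Real.rpow_le_rpow_of_exponent_ge hδ hδ1.le (by linarith)
  have h3 : 1 ≤ δ ^ (-τ) := Real.one_le_rpow_of_pos_of_le_one_of_nonpos hδ hδ1.le (by linarith)
  linarith

/-- From some displacement back to the worst case. -/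
theorem down_beta {d : ℕ} (hd : 1 ≤ d) {q : ℝ} (hq : 1 + 1 / (d : ℝ) ≤ q) {β τ : ℝ}
    (hβ0 : 0 < β) (hβ1 : β < 1) (hτ : 0 ≤ τ)
    (h : ∃ C : ℝ, 0 < C ∧ ∀ δ : ℝ, 0 < δ → δ < 1 → MovC d q δ (δ ^ β) (C * δ ^ (-τ))) {σ : ℝ}
    (hσ : τ + (1 - β) * ((d : ℝ) * q - d - 1) ≤ β * σ) :
    ∃ C : ℝ, 0 < C ∧ ∀ δ : ℝ, 0 < δ → δ < 1 → WorstC d q δ (C * δ ^ (-σ)) := by
  obtain ⟨C, hC, hM⟩ := h
  obtain ⟨K, L, hK, hL, hlow⟩ := lower hd hq
  obtain ⟨K1, hK1, htriv⟩ := triv hd hq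
  have hd0 : (0 : ℝ) < d := by exact_mod_cast hd
  set G : ℝ := (d : ℝ) * q - d - 1 with hG
  have hG0 : 0 ≤ G := by
    have h1 : (d : ℝ) * (1 + 1 / d) ≤ d * q := by gcongr
    have h2 : (d : ℝ) * (1 + 1 / d) = d + 1 := by field_simp
    rw [hG]; linarith
  have hσ0 : 0 ≤ σ := by
    have h1 : 0 ≤ β * σ := by nlinarith [mul_nonneg (by linarith : 0 ≤ 1 - β) hG0]
    by_contra hcon
    rw [not_le] at hcon
    nlinarith
  have hβi : 0 < 1 / β - 1 := by
    rw [sub_pos, lt_div_iff₀ hβ0]; linarith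
  -- the threshold
  set r0 : ℝ := min 1 ((1 / (8 * L)) ^ (1 / (1 / β - 1))) with hr0
  have hr0p : 0 < r0 := by
    rw [hr0]
    refine lt_min one_pos ?_
    positivity
  set η0 : ℝ := r0 / 8 with hη0
  have hη0p : 0 < η0 := by positivity
  have hη08 : η0 ≤ 1 / 8 := by
    rw [hη0]
    have : r0 ≤ 1 := min_le_left _ _
    linarith
  refine ⟨K * C * 8 ^ (-(σ : ℝ)) + K1 * η0⁻¹, by positivity, ?_⟩
  intro η hη hη1
  have hηs : 1 ≤ η ^ (-σ) := Real.one_le_rpow_of_pos_of_le_one_of_nonpos hη hη1.le (by linarith)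
  rcases lt_or_ge η η0 with h1 | h1
  · -- small scales
    set ρ : ℝ := 8 * η with hρ
    have hρ0 : 0 < ρ := by positivity
    have hρr : ρ < r0 := by rw [hρ]; linarith
    have hρ1 : ρ < 1 := hρr.trans_le (min_le_left _ _)
    set δ : ℝ := ρ ^ (1 / β) with hδdef
    have hδ : 0 < δ := by positivity
    have hδ1 : δ < 1 := Real.rpow_lt_one hρ0.le hρ1 (by positivity)
    have hδβ : δ ^ β = ρ := by
      rw [hδdef, ← Real.rpow_mul hρ0.le, one_div_mul_cancel hβ0.ne', Real.rpow_one]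
    have hsmall : ρ ^ (1 / β - 1) ≤ 1 / (8 * L) := by
      calc ρ ^ (1 / β - 1) ≤ ((1 / (8 * L)) ^ (1 / (1 / β - 1))) ^ (1 / β - 1) := by
            apply Real.rpow_le_rpow hρ0.le _ hβi.le
            exact hρr.le.trans (min_le_right _ _)
        _ = 1 / (8 * L) := by
            rw [← Real.rpow_mul (by positivity), one_div_mul_cancel hβi.ne', Real.rpow_one]
    have hδρ : δ = ρ ^ (1 / β - 1) * ρ := by
      rw [hδdef, Real.rpow_sub hρ0, Real.rpow_one]
      field_simp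
    have hLη : L ≤ η / δ := by
      rw [le_div_iff₀ hδ, hδρ]
      have hLp : 0 < L := by linarith
      calc L * (ρ ^ (1 / β - 1) * ρ) ≤ L * (1 / (8 * L) * ρ) := by gcongr
        _ = η := by rw [hρ]; field_simp
    have hM1 := hM δ hδ hδ1
    rw [hδβ] at hM1
    have h2 := hlow (C * δ ^ (-τ)) δ η (by positivity) hδ (h1.le.trans hη08) hLη hM1
    refine worst_mono hη.le ?_ h2
    -- the constants
    have hηρ : η ≤ ρ := by rw [hρ]; linarith
    have h3 : (η / δ) ^ G ≤ (ρ / δ) ^ G := by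
      apply Real.rpow_le_rpow (by positivity) _ hG0
      gcongr
    have h4 : δ ^ (-τ) * (ρ / δ) ^ G = ρ ^ (-((τ + (1 - β) * G) / β)) := by
      have e1 : ρ / δ = ρ ^ (1 - 1 / β) := by
        rw [hδdef, Real.rpow_sub hρ0, Real.rpow_one]
      rw [e1, hδdef, ← Real.rpow_mul hρ0.le, ← Real.rpow_mul hρ0.le, ← Real.rpow_add hρ0]
      congr 1
      field_simp
      ring
    have h5 : ρ ^ (-((τ + (1 - β) * G) / β)) ≤ ρ ^ (-σ) := by
      apply Real.rpow_le_rpow_of_exponent_ge hρ0 hρ1.le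
      apply neg_le_neg
      rw [div_le_iff₀ hβ0]
      linarith
    have h6 : ρ ^ (-σ) = 8 ^ (-σ) * η ^ (-σ) := by
      rw [hρ, Real.mul_rpow (by norm_num) hη.le]
    calc K * (C * δ ^ (-τ)) * (η / δ) ^ G ≤ K * (C * δ ^ (-τ)) * (ρ / δ) ^ G := by gcongr
      _ = K * C * (δ ^ (-τ) * (ρ / δ) ^ G) := by ring
      _ ≤ K * C * (8 ^ (-σ) * η ^ (-σ)) := by
          rw [h4, ← h6]
          gcongr
      _ = K * C * 8 ^ (-σ) * η ^ (-σ) := by ring
      _ ≤ _ := by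
          gcongr
          have : 0 ≤ K1 * η0⁻¹ := by positivity
          linarith
  · refine worst_mono hη.le ?_ (htriv η hη hη1)
    have h2 : η⁻¹ ≤ η0⁻¹ := by gcongr
    have h3 : 0 ≤ K * C * 8 ^ (-σ) * η ^ (-σ) := by positivity
    calc K1 * η⁻¹ ≤ K1 * η0⁻¹ := by gcongr
      _ ≤ K1 * η0⁻¹ * η ^ (-σ) := by
          have : 0 ≤ K1 * η0⁻¹ := by positivity
          nlinarith
      _ ≤ _ := by rw [add_mul]; linarith

/-- Interpolation with the trivial estimate for the exponent `1`. -/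
theorem interp {d : ℕ} (hd : 1 ≤ d) {q q1 : ℝ} (hq : 1 + 1 / (d : ℝ) ≤ q) (hq1 : q < q1)
    {C1 : ℝ} (hC1 : 0 < C1) (h : ∀ δ : ℝ, 0 < δ → δ < 1 → WorstC d q1 δ C1) :
    ∃ C : ℝ, 0 < C ∧ ∀ δ : ℝ, 0 < δ → δ < 1 →
      WorstC d q δ (C * δ ^ (-((q1 - q) / (q1 - 1)))) := by
  obtain ⟨K0, hK0, hcnt⟩ := dircount (n := d + 1) (by omega)
  have hd0 : (0 : ℝ) < d := by exact_mod_cast hd
  have hp0 : 0 < 1 / (d : ℝ) := by positivity
  have hCv := Cv_pos (d + 1)
  set p : ℝ := 1 / (d : ℝ) with hp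
  have hdp : (d : ℝ) * p = 1 := by rw [hp]; exact mul_one_div_cancel hd0.ne'
  set t : ℝ := (q - 1) / (q1 - 1) with ht
  have hq11 : 0 < q1 - 1 := by linarith
  have ht0 : 0 < t := by
    have : 0 < q - 1 := by linarith
    positivity
  have ht1 : 0 < 1 - t := by
    rw [ht, sub_pos, div_lt_one hq11]; linarith
  have hs : (q1 - q) / (q1 - 1) = 1 - t := by
    rw [ht]; field_simp; ring
  have htq : t * (q1 - 1) = q - 1 := by rw [ht]; field_simp
  rw [hs]
  refine ⟨(Cv (d + 1) * 2) ^ (1 - t) * C1 ^ t * K0 ^ ((1 - t) * p), by positivity, ?_⟩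
  intro δ hδ hδ1 ι _ a e he hsep
  have hNc := hcnt δ hδ hδ1 e he hsep
  rw [Nat.add_sub_cancel] at hNc
  set N : ℝ := (Fintype.card ι : ℝ) with hN
  have hN0 : 0 ≤ N := by positivity
  set T : ι → Set (E (d + 1)) := fun i => tube δ (a i) (e i) with hT
  have hTm : ∀ i, MeasurableSet (T i) := fun i => tube_meas _ _ _
  have hm := mult_meas hTm
  have h1 := ENNReal.lintegral_mul_norm_pow_le (μ := (volume : Measure (E (d + 1))))
    (f := mult T) (g := fun x => mult T x ^ q1)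
    hm.aemeasurable (hm.pow_const q1).aemeasurable ht1.le ht0.le (by ring)
  have h2 : ∀ x, mult T x ^ (1 - t) * (mult T x ^ q1) ^ t = mult T x ^ q := by
    intro x
    have h6 : 0 < q1 := by linarith
    rw [← ENNReal.rpow_mul, ← ENNReal.rpow_add_of_nonneg _ _ ht1.le (by positivity)]
    congr 1
    linarith
  rw [lintegral_congr h2] at h1
  refine h1.trans ?_
  have h3 : ∫⁻ x, mult T x ≤ ENNReal.ofReal (Cv (d + 1) * 2 * δ ^ d * N) := by
    rw [lint_mult volume hTm]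
    calc ∑ i, volume (T i) ≤ ∑ _i : ι, ENNReal.ofReal (Cv (d + 1) * 2 * δ ^ d) := by
          apply Finset.sum_le_sum
          intro i _
          have h5 := vol_tube (n := d + 1) (by omega) (a := a i) (he i) hδ hδ1
          rw [Nat.add_sub_cancel] at h5
          exact h5
      _ = _ := by
          rw [Finset.sum_const, Finset.card_univ, nsmul_eq_mul, mul_comm,
            ENNReal.ofReal_mul (p := Cv (d + 1) * 2 * δ ^ d) (by positivity),
            ENNReal.ofReal_natCast]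
  have h4 := h δ hδ hδ1 ι a e he hsep
  calc (∫⁻ x, mult T x) ^ (1 - t) * (∫⁻ x, mult T x ^ q1) ^ t
      ≤ ENNReal.ofReal (Cv (d + 1) * 2 * δ ^ d * N) ^ (1 - t) *
        ENNReal.ofReal (C1 * (δ ^ d * N ^ (q1 - p))) ^ t := by
        gcongr
    _ = ENNReal.ofReal ((Cv (d + 1) * 2 * δ ^ d * N) ^ (1 - t) *
        (C1 * (δ ^ d * N ^ (q1 - p))) ^ t) := by
        rw [ENNReal.ofReal_rpow_of_nonneg (by positivity) ht1.le,
          ENNReal.ofReal_rpow_of_nonneg (by positivity) ht0.le,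
          ← ENNReal.ofReal_mul (by positivity)]
    _ ≤ _ := by
        apply ENNReal.ofReal_le_ofReal
        rcases eq_or_lt_of_le hN0 with h0 | h0
        · rw [← h0, mul_zero, Real.zero_rpow ht1.ne', zero_mul]
          positivity
        have hδd : 0 < δ ^ d := by positivity
        have e1 : (Cv (d + 1) * 2 * δ ^ d * N) ^ (1 - t) =
            (Cv (d + 1) * 2) ^ (1 - t) * (δ ^ d) ^ (1 - t) * N ^ (1 - t) := by
          rw [Real.mul_rpow (by positivity) hN0, Real.mul_rpow (by positivity) (by positivity)]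
        have e2 : (C1 * (δ ^ d * N ^ (q1 - p))) ^ t =
            C1 ^ t * ((δ ^ d) ^ t * N ^ ((q1 - p) * t)) := by
          rw [Real.mul_rpow hC1.le (by positivity), Real.mul_rpow (by positivity) (by positivity),
            ← Real.rpow_mul hN0]
        have e3 : (δ ^ d) ^ (1 - t) * (δ ^ d) ^ t = δ ^ d := by
          rw [← Real.rpow_add hδd]
          have : 1 - t + t = 1 := by ring
          rw [this, Real.rpow_one]
        have e4 : N ^ (1 - t) * N ^ ((q1 - p) * t) = N ^ (q - p) * N ^ ((1 - t) * p) := by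
          rw [← Real.rpow_add h0, ← Real.rpow_add h0]
          congr 1
          linarith
        have e5 : N ^ ((1 - t) * p) ≤ K0 ^ ((1 - t) * p) * δ ^ (-(1 - t)) := by
          calc N ^ ((1 - t) * p) ≤ (K0 * (1 / δ) ^ d) ^ ((1 - t) * p) := by gcongr
            _ = _ := by
              rw [Real.mul_rpow (by linarith) (by positivity), ← Real.rpow_natCast (1 / δ) d,
                ← Real.rpow_mul (by positivity)]
              have e6 : (d : ℝ) * ((1 - t) * p) = 1 - t := by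
                calc (d : ℝ) * ((1 - t) * p) = (1 - t) * (d * p) := by ring
                  _ = _ := by rw [hdp, mul_one]
              rw [e6, one_div, Real.inv_rpow hδ.le, Real.rpow_neg hδ.le]
        rw [e1, e2]
        calc (Cv (d + 1) * 2) ^ (1 - t) * (δ ^ d) ^ (1 - t) * N ^ (1 - t) *
              (C1 ^ t * ((δ ^ d) ^ t * N ^ ((q1 - p) * t)))
            = (Cv (d + 1) * 2) ^ (1 - t) * C1 ^ t * ((δ ^ d) ^ (1 - t) * (δ ^ d) ^ t) *
              (N ^ (1 - t) * N ^ ((q1 - p) * t)) := by ring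
          _ = (Cv (d + 1) * 2) ^ (1 - t) * C1 ^ t * δ ^ d *
              (N ^ (q - p) * N ^ ((1 - t) * p)) := by rw [e3, e4]
          _ ≤ (Cv (d + 1) * 2) ^ (1 - t) * C1 ^ t * δ ^ d *
              (N ^ (q - p) * (K0 ^ ((1 - t) * p) * δ ^ (-(1 - t)))) := by gcongr
          _ = _ := by ring

/-- Wolff's range without loss. -/
theorem wolffC {d : ℕ} (hd : 2 ≤ d) {q : ℝ} (hq : 1 + 2 / ((d : ℝ) + 1) < q) : ∃ C : ℝ, 0 < C ∧
    ∀ δ : ℝ, 0 < δ → δ < 1 → WorstC d q δ C := by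
  have hq' : 1 + 2 / ((d + 1 : ℕ) : ℝ) < q := by push_cast; exact hq
  obtain ⟨C, hC, h⟩ := Pool.Agent.Y254.wolff (n := d + 1) (by omega) hq'
  refine ⟨C, hC, ?_⟩
  intro δ hδ hδ1 ι _ a e he hsep
  have h2 := h δ hδ hδ1 a e he hsep
  have e1 : (((d + 1 : ℕ) : ℝ) - 1) = d := by push_cast; ring
  rw [e1, Nat.add_sub_cancel] at h2
  exact h2

/-- The unconditional range for the average. -/
theorem uncond {d : ℕ} (hd : 2 ≤ d) {q β : ℝ} (hq : 1 + 1 / (d : ℝ) < q) (hβ0 : 0 < β) (hβ1 : β < 1)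
    (hβ : β * (((d : ℝ) - 1) * (q - 1)) < 2 * ((d : ℝ) * q - d - 1)) : ∃ C : ℝ, 0 < C ∧
    ∀ δ : ℝ, 0 < δ → δ < 1 → TypC d q δ (δ ^ β) (C * δ ^ (-(0 : ℝ))) := by
  have hd0 : (0 : ℝ) < d := by
    have : (2 : ℝ) ≤ d := by exact_mod_cast hd
    linarith
  have hd1 : (0 : ℝ) < (d : ℝ) + 1 := by linarith
  set G : ℝ := (d : ℝ) * q - d - 1 with hG
  have hG0 : 0 < G := by
    have h1 : (d : ℝ) * (1 + 1 / d) < d * q := by gcongr
    have h2 : (d : ℝ) * (1 + 1 / d) = d + 1 := by field_simp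
    rw [hG]; linarith
  rcases lt_or_ge (1 + 2 / ((d : ℝ) + 1)) q with h1 | h1
  · obtain ⟨C, hC, h⟩ := wolffC hd h1
    refine up_beta (σ := 0) (by omega) hq.le le_rfl hβ0 hβ1 ⟨C, hC, ?_⟩ le_rfl ?_
    · intro δ hδ hδ1
      rw [neg_zero, Real.rpow_zero, mul_one]
      exact h δ hδ hδ1
    · have : 0 ≤ (1 - β) * G := mul_nonneg (by linarith) hG0.le
      linarith
  · set t : ℝ := (1 - β) * G / β with ht
    have htp : 0 < t := by
      have : 0 < 1 - β := by linarith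
      positivity
    have hβt : β * t = (1 - β) * G := by rw [ht]; field_simp
    set w : ℝ := 2 / ((d : ℝ) + 1) with hw
    have hw0 : 0 < w := by positivity
    have hwd : w * ((d : ℝ) + 1) = 2 := by rw [hw]; field_simp
    -- `t` is larger than the loss which comes from Wolff's theorem
    have hstr : 1 + w - q < t * w := by
      have h2 : β * (1 + w - q) < β * (t * w) := by
        have h3 : β * (t * w) = (1 - β) * G * w := by rw [← hβt]; ring
        rw [h3]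
        -- multiply by (d+1)
        have h4 : (β * (1 + w - q)) * ((d : ℝ) + 1) < ((1 - β) * G * w) * ((d : ℝ) + 1) := by
          have e1 : (β * (1 + w - q)) * ((d : ℝ) + 1) = β * ((1 - q) * (d + 1) + 2) := by
            linear_combination β * hwd
          have e2 : ((1 - β) * G * w) * ((d : ℝ) + 1) = (1 - β) * G * 2 := by
            linear_combination ((1 - β) * G) * hwd
          rw [e1, e2, hG]
          rw [hG] at hβ
          nlinarith
        exact lt_of_mul_lt_mul_right h4 hd1.le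
      exact lt_of_mul_lt_mul_left h2 hβ0.le
    set ε : ℝ := t * w - (1 + w - q) with hε
    have hε0 : 0 < ε := by rw [hε]; linarith
    set q1 : ℝ := 1 + w + ε with hq1
    obtain ⟨C1, hC1, h⟩ := wolffC hd (q := q1) (by rw [hq1]; linarith)
    have hσ : (q1 - q) / (q1 - 1) ≤ t := by
      rw [div_le_iff₀ (by rw [hq1]; linarith)]
      rw [hq1]
      nlinarith
    refine up_beta (σ := (q1 - q) / (q1 - 1)) (by omega) hq.le ?_ hβ0 hβ1
      (interp (by omega) hq.le (by rw [hq1]; linarith) hC1 h) le_rfl ?_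
    · apply div_nonneg
      · rw [hq1]; linarith
      · rw [hq1]; linarith
    · have h5 : β * ((q1 - q) / (q1 - 1)) ≤ β * t := by gcongr
      rw [hβt] at h5
      linarith

end Pool.Agent.H160.KD
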