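import Mathlib
set_option autoImplicit false

/-!
# Moments of a number of independent events
-/

open MeasureTheory Set
open scoped ENNReal NNReal

namespace Pool.Agent.H160.KD

/-- `y ^ q ≤ K (e ^ y - 1)` for `q ≥ 1`. -/
theorem rpow_le_exp {q : ℝ} (hq : 1 ≤ q) {y : ℝ} (hy : 0 ≤ y) :
    y ^ q ≤ (⌈q⌉₊.factorial : ℝ) * (Real.exp y - 1) := by
  set m : ℕ := ⌈q⌉₊ with hm
  have hm1 : 1 ≤ m := by
    have : (0 : ℝ) < q := by linarith
    exact Nat.one_le_ceil_iff.2 this
  have hmq : q ≤ m := Nat.le_ceil q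
  have hf : (1 : ℝ) ≤ (m.factorial : ℝ) := by exact_mod_cast Nat.one_le_iff_ne_zero.2 (Nat.factorial_ne_zero m)
  have h1 : y ≤ Real.exp y - 1 := by
    have := Real.add_one_le_exp y
    linarith
  rcases le_total y 1 with h | h
  · have h2 : y ^ q ≤ y := by
      calc y ^ q ≤ y ^ (1 : ℝ) := Real.rpow_le_rpow_of_exponent_ge' hy h zero_le_one hq
        _ = y := Real.rpow_one y
    nlinarith
  · have h2 : y ^ q ≤ y ^ m := by
      rw [← Real.rpow_natCast]
      exact Real.rpow_le_rpow_of_exponent_le h hmq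
    have h3 := Real.sum_le_exp_of_nonneg hy (m + 1)
    rw [Finset.sum_range_succ] at h3
    have h4 : (1 : ℝ) ≤ ∑ i ∈ Finset.range m, y ^ i / (i.factorial : ℝ) := by
      have h5 : (1 : ℝ) = y ^ 0 / (Nat.factorial 0 : ℝ) := by simp
      rw [h5]
      exact Finset.single_le_sum (f := fun i => y ^ i / (i.factorial : ℝ))
        (fun i _ => by positivity) (Finset.mem_range.2 hm1)
    have h6 : y ^ m / (m.factorial : ℝ) ≤ Real.exp y - 1 := by linarith
    rw [div_le_iff₀ (by positivity)] at h6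
    calc y ^ q ≤ y ^ m := h2
      _ ≤ _ := by linarith

variable {X : Type*} [MeasurableSpace X] {ι : Type*} [Fintype ι]

/-- The number of the indices `i` with `u i ∈ B i`. -/
noncomputable def cnt (B : ι → Set X) (u : ι → X) : ℝ :=
  ∑ i, (B i).indicator (fun _ => (1 : ℝ)) (u i)

omit [MeasurableSpace X] in
theorem cnt_nonneg (B : ι → Set X) (u : ι → X) : 0 ≤ cnt B u :=
  Finset.sum_nonneg fun _ _ => indicator_nonneg (fun _ _ => zero_le_one) _

omit [MeasurableSpace X] in
theorem cnt_le (B : ι → Set X) (u : ι → X) : cnt B u ≤ Fintype.card ι := by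
  unfold cnt
  calc ∑ i, (B i).indicator (fun _ => (1 : ℝ)) (u i) ≤ ∑ _i : ι, (1 : ℝ) := by
        apply Finset.sum_le_sum
        intro i _
        exact indicator_le_self' (fun _ _ => zero_le_one) _
    _ = _ := by simp

theorem cnt_meas {B : ι → Set X} (hB : ∀ i, MeasurableSet (B i)) : Measurable (cnt B) := by
  unfold cnt
  apply Finset.measurable_sum
  intro i _
  exact (measurable_const.indicator (hB i)).comp (measurable_pi_apply i)

theorem int_exp (ν : Measure X) [IsProbabilityMeasure ν] {B : Set X} (hB : MeasurableSet B)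
    (l : ℝ) :
    ∫ x, Real.exp (l * B.indicator (fun _ => (1 : ℝ)) x) ∂ν = 1 + (Real.exp l - 1) * ν.real B := by
  have h1 : ∀ x, Real.exp (l * B.indicator (fun _ => (1 : ℝ)) x) =
      1 + B.indicator (fun _ => Real.exp l - 1) x := by
    intro x
    by_cases hx : x ∈ B
    · rw [indicator_of_mem hx, indicator_of_mem hx]; simp
    · rw [indicator_of_notMem hx, indicator_of_notMem hx]; simp
  simp only [h1]
  rw [integral_add (integrable_const _) ((integrable_const _).indicator hB)]
  rw [integral_indicator_const _ hB]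
  simp [mul_comm]

theorem exp_cnt (ν : Measure X) [IsProbabilityMeasure ν] {B : ι → Set X}
    (hB : ∀ i, MeasurableSet (B i)) (l : ℝ) :
    ∫ u, Real.exp (l * cnt B u) ∂(Measure.pi fun _ : ι => ν) ≤
      Real.exp ((Real.exp l - 1) * ∑ i, ν.real (B i)) := by
  have h1 : ∀ u : ι → X, Real.exp (l * cnt B u) =
      ∏ i, Real.exp (l * (B i).indicator (fun _ => (1 : ℝ)) (u i)) := by
    intro u
    unfold cnt
    rw [← Real.exp_sum, Finset.mul_sum]
  simp only [h1]
  rw [integral_fintype_prod_eq_prod (fun i x => Real.exp (l * (B i).indicator (fun _ => (1 : ℝ)) x))]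
  rw [Finset.mul_sum, Real.exp_sum]
  apply Finset.prod_le_prod
  · intro i _
    exact integral_nonneg fun x => (Real.exp_pos _).le
  · intro i _
    rw [int_exp ν (hB i)]
    have := Real.add_one_le_exp ((Real.exp l - 1) * ν.real (B i))
    linarith

/-- The moments of the number of the independent events that occur. -/
theorem moment {q : ℝ} (hq : 1 ≤ q) (ν : Measure X) [IsProbabilityMeasure ν] {B : ι → Set X}
    (hB : ∀ i, MeasurableSet (B i)) {m : ℝ} (hm : m = ∑ i, ν.real (B i)) :
    ∫ u, cnt B u ^ q ∂(Measure.pi fun _ : ι => ν) ≤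
      (⌈q⌉₊.factorial : ℝ) * 16 * (m + m ^ q) := by
  have hq0 : 0 < q := by linarith
  have hm0 : 0 ≤ m := by
    rw [hm]; exact Finset.sum_nonneg fun i _ => measureReal_nonneg
  have hK : (0 : ℝ) < (⌈q⌉₊.factorial : ℝ) := by exact_mod_cast Nat.factorial_pos _
  set K : ℝ := (⌈q⌉₊.factorial : ℝ) with hKdef
  have hcm := cnt_meas hB
  have hbd : ∀ u : ι → X, |cnt B u| ≤ Fintype.card ι := fun u => by
    rw [abs_of_nonneg (cnt_nonneg B u)]; exact cnt_le B u
  have hint1 : Integrable (fun u : ι → X => cnt B u ^ q) (Measure.pi fun _ : ι => ν) := by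
    refine Integrable.of_bound (hcm.pow_const q).aestronglyMeasurable
      ((Fintype.card ι : ℝ) ^ q) (Filter.Eventually.of_forall fun u => ?_)
    rw [Real.norm_eq_abs, abs_of_nonneg (Real.rpow_nonneg (cnt_nonneg B u) _)]
    exact Real.rpow_le_rpow (cnt_nonneg B u) (cnt_le B u) hq0.le
  have hint2 : ∀ l : ℝ, 0 ≤ l →
      Integrable (fun u : ι → X => Real.exp (l * cnt B u)) (Measure.pi fun _ : ι => ν) := by
    intro l hl
    refine Integrable.of_bound (hcm.const_mul l).exp.aestronglyMeasurable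
      (Real.exp (l * Fintype.card ι)) (Filter.Eventually.of_forall fun u => ?_)
    rw [Real.norm_eq_abs, abs_of_pos (Real.exp_pos _)]
    apply Real.exp_le_exp.2
    exact mul_le_mul_of_nonneg_left (cnt_le B u) hl
  have key : ∀ l : ℝ, 0 < l → l ≤ 1 → l * m ≤ 1 →
      l ^ q * ∫ u, cnt B u ^ q ∂(Measure.pi fun _ : ι => ν) ≤ K * 16 * (l * m) := by
    intro l hl hl1 hlm
    have h1 : l ^ q * ∫ u, cnt B u ^ q ∂(Measure.pi fun _ : ι => ν) ≤
        ∫ u, K * (Real.exp (l * cnt B u) - 1) ∂(Measure.pi fun _ : ι => ν) := by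
      rw [← integral_const_mul]
      apply integral_mono (hint1.const_mul _) (((hint2 l hl.le).sub (integrable_const 1)).const_mul _)
      intro u
      dsimp only
      rw [← Real.mul_rpow hl.le (cnt_nonneg B u)]
      exact rpow_le_exp hq (mul_nonneg hl.le (cnt_nonneg B u))
    rw [integral_const_mul, integral_sub (hint2 l hl.le) (integrable_const 1)] at h1
    have h2 := exp_cnt ν hB l
    rw [← hm] at h2
    have h3 : ∫ _u, (1 : ℝ) ∂(Measure.pi fun _ : ι => ν) = 1 := by simp
    rw [h3] at h1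
    -- e^l - 1 ≤ 2 l
    have h4 : Real.exp l - 1 ≤ 2 * l := by
      have := Real.abs_exp_sub_one_le (x := l) (by rw [abs_of_pos hl]; exact hl1)
      rw [abs_of_pos hl] at this
      exact (le_abs_self _).trans this
    have h4' : 0 ≤ Real.exp l - 1 := by
      have := Real.add_one_le_exp l
      linarith
    set y : ℝ := l * m with hy
    have hy0 : 0 ≤ y := by positivity
    have h5 : (Real.exp l - 1) * m ≤ 2 * y := by
      rw [hy]; nlinarith
    have h6 : Real.exp ((Real.exp l - 1) * m) ≤ Real.exp (2 * y) := Real.exp_le_exp.2 h5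
    -- exp(2y) - 1 ≤ 16 y for y ≤ 1
    have h7 : Real.exp (2 * y) - 1 ≤ 16 * y := by
      have h8 : Real.exp (2 * y) ≤ 1 - y + y * Real.exp 2 := by
        have hc := convexOn_exp.2 (mem_univ (0 : ℝ)) (mem_univ (2 : ℝ))
          (show (0 : ℝ) ≤ 1 - y by linarith) hy0 (by ring)
        simp only [smul_eq_mul, mul_zero, zero_add, Real.exp_zero, mul_one] at hc
        have e1 : y * 2 = 2 * y := by ring
        rw [e1] at hc
        exact hc
      have h9 : Real.exp 2 ≤ 16 := by
        have e2 : Real.exp 2 = Real.exp 1 * Real.exp 1 := by rw [← Real.exp_add]; norm_num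
        have e3 := Real.exp_one_lt_d9
        have e4 := Real.exp_pos 1
        rw [e2]
        nlinarith
      nlinarith
    calc l ^ q * ∫ u, cnt B u ^ q ∂(Measure.pi fun _ : ι => ν)
        ≤ K * (∫ u, Real.exp (l * cnt B u) ∂(Measure.pi fun _ : ι => ν) - 1) := h1
      _ ≤ K * (16 * y) := by
          gcongr
          linarith
      _ = _ := by ring
  have hE0 : 0 ≤ ∫ u, cnt B u ^ q ∂(Measure.pi fun _ : ι => ν) :=
    integral_nonneg fun u => Real.rpow_nonneg (cnt_nonneg B u) _
  rcases le_total m 1 with h | h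
  · have h1 := key 1 one_pos le_rfl (by linarith)
    rw [Real.one_rpow, one_mul, one_mul] at h1
    have h2 : 0 ≤ m ^ q := Real.rpow_nonneg hm0 _
    have h3 : 0 ≤ K * 16 * m ^ q := by positivity
    linarith
  · have hmp : 0 < m := by linarith
    have h1 := key m⁻¹ (by positivity) (inv_le_one_of_one_le₀ h) (by rw [inv_mul_cancel₀ hmp.ne'])
    rw [inv_mul_cancel₀ hmp.ne', Real.inv_rpow hm0, mul_one, inv_mul_le_iff₀ (by positivity)] at h1
    have h3 : 0 ≤ K * 16 * m := by positivity
    linarith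

/-- The moments, in the extended nonnegative reals. -/
theorem moment' {q : ℝ} (hq : 1 ≤ q) (ν : Measure X) [IsProbabilityMeasure ν] {B : ι → Set X}
    (hB : ∀ i, MeasurableSet (B i)) :
    ∫⁻ u, (∑ i, (B i).indicator 1 (u i)) ^ q ∂(Measure.pi fun _ : ι => ν) ≤
      ENNReal.ofReal ((⌈q⌉₊.factorial : ℝ) * 16) * (∑ i, ν (B i) + (∑ i, ν (B i)) ^ q) := by
  have hq0 : 0 < q := by linarith
  have h1 : ∀ u : ι → X, (∑ i, (B i).indicator (1 : X → ℝ≥0∞) (u i)) ^ q =
      ENNReal.ofReal (cnt B u ^ q) := by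
    intro u
    rw [← ENNReal.ofReal_rpow_of_nonneg (cnt_nonneg B u) hq0.le]
    congr 1
    unfold cnt
    rw [ENNReal.ofReal_sum_of_nonneg fun i _ => indicator_nonneg (fun _ _ => zero_le_one) _]
    refine Finset.sum_congr rfl fun i _ => ?_
    by_cases hx : u i ∈ B i
    · rw [indicator_of_mem hx, indicator_of_mem hx]; simp
    · rw [indicator_of_notMem hx, indicator_of_notMem hx]; simp
  simp only [h1]
  have hint1 : Integrable (fun u : ι → X => cnt B u ^ q) (Measure.pi fun _ : ι => ν) := by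
    refine Integrable.of_bound ((cnt_meas hB).pow_const q).aestronglyMeasurable
      ((Fintype.card ι : ℝ) ^ q) (Filter.Eventually.of_forall fun u => ?_)
    rw [Real.norm_eq_abs, abs_of_nonneg (Real.rpow_nonneg (cnt_nonneg B u) _)]
    exact Real.rpow_le_rpow (cnt_nonneg B u) (cnt_le B u) hq0.le
  rw [← ofReal_integral_eq_lintegral_ofReal hint1
    (Filter.Eventually.of_forall fun u => Real.rpow_nonneg (cnt_nonneg B u) _)]
  have h2 : ∑ i, ν (B i) = ENNReal.ofReal (∑ i, ν.real (B i)) := by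
    rw [ENNReal.ofReal_sum_of_nonneg fun i _ => measureReal_nonneg]
    refine Finset.sum_congr rfl fun i _ => ?_
    rw [ofReal_measureReal]
  have hm0 : 0 ≤ ∑ i, ν.real (B i) := Finset.sum_nonneg fun i _ => measureReal_nonneg
  rw [h2, ENNReal.ofReal_rpow_of_nonneg hm0 hq0.le, ← ENNReal.ofReal_add hm0 (by positivity),
    ← ENNReal.ofReal_mul (by positivity)]
  exact ENNReal.ofReal_le_ofReal (moment hq ν hB rfl)

/-- The mean of the number of the events. -/
theorem mean (ν : Measure X) [IsProbabilityMeasure ν] {B : ι → Set X}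
    (hB : ∀ i, MeasurableSet (B i)) :
    ∫⁻ u, (∑ i, (B i).indicator (1 : X → ℝ≥0∞) (u i)) ∂(Measure.pi fun _ : ι => ν) =
      ∑ i, ν (B i) := by
  have h0 : ∀ i ∈ (Finset.univ : Finset ι), Measurable fun u : ι → X =>
      (B i).indicator (1 : X → ℝ≥0∞) (u i) := fun i _ =>
    (measurable_one.indicator (hB i)).comp (measurable_pi_apply i)
  rw [lintegral_finsetSum _ h0]
  refine Finset.sum_congr rfl fun i _ => ?_
  have h1 := (measurePreserving_eval (fun _ : ι => ν) i).lintegral_comp
    (f := (B i).indicator (1 : X → ℝ≥0∞)) (measurable_one.indicator (hB i))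
  rw [lintegral_indicator_one (hB i)] at h1
  exact h1

/-- Jensen's inequality for the powers. -/
theorem jensen {Q : Type*} [MeasurableSpace Q] (ρ : Measure Q) [IsProbabilityMeasure ρ]
    {f : Q → ℝ≥0∞} (hf : Measurable f) {q : ℝ} (hq : 1 ≤ q) :
    (∫⁻ x, f x ∂ρ) ^ q ≤ ∫⁻ x, f x ^ q ∂ρ := by
  have h1 := ENNReal.lintegral_mul_norm_pow_le (μ := ρ) (f := fun x => f x ^ q)
    (g := fun _ => (1 : ℝ≥0∞)) (hf.pow_const q).aemeasurable aemeasurable_const
    (p := 1 / q) (q := 1 - 1 / q) (by positivity) (by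
      rw [sub_nonneg, div_le_one (by linarith)]; exact hq) (by ring)
  have hq0 : 0 < q := by linarith
  have h2 : ∀ x, (f x ^ q) ^ (1 / q) * (1 : ℝ≥0∞) ^ (1 - 1 / q) = f x := by
    intro x
    rw [ENNReal.one_rpow, mul_one, ← ENNReal.rpow_mul, mul_one_div_cancel hq0.ne', ENNReal.rpow_one]
  rw [lintegral_congr h2] at h1
  simp only [lintegral_const, measure_univ, mul_one, ENNReal.one_rpow] at h1
  calc (∫⁻ x, f x ∂ρ) ^ q ≤ ((∫⁻ x, f x ^ q ∂ρ) ^ (1 / q)) ^ q :=
        ENNReal.rpow_le_rpow h1 hq0.le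
    _ = _ := by rw [← ENNReal.rpow_mul, one_div, inv_mul_cancel₀ hq0.ne', ENNReal.rpow_one]

end Pool.Agent.H160.KD
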