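import Pool.Agent.H160.KD.Col
set_option autoImplicit false

/-!
# Tubes displaced by independent uniform vectors: the upper bound
-/

open MeasureTheory Set Metric
open scoped ENNReal NNReal

namespace Pool.Agent.H160.KD
open Pool.Agent.Y254 (tube tube_meas tube_closed vol_near vol_tube Cv Cv_pos mult mult_meas mult_le)
open Pool.Agent.TH705.RR (E vb vb_pos vol_cball)

/-- The uniform distribution on the ball of radius `ρ` around `0`. -/
noncomputable def unif (n : ℕ) (ρ : ℝ) : Measure (E n) :=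
  (volume (closedBall (0 : E n) ρ))⁻¹ • volume.restrict (closedBall (0 : E n) ρ)

theorem unif_prob (n : ℕ) {ρ : ℝ} (hρ : 0 < ρ) : IsProbabilityMeasure (unif n ρ) := by
  constructor
  unfold unif
  rw [Measure.smul_apply, Measure.restrict_apply_univ, smul_eq_mul, ENNReal.inv_mul_cancel]
  · exact (measure_closedBall_pos volume _ hρ).ne'
  · exact measure_closedBall_lt_top.ne

theorem mem_shift {n : ℕ} {δ : ℝ} {a u e x : E n} :
    x ∈ tube δ (a + u) e ↔ x - u ∈ tube δ a e := by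
  have h : x - (a + u) = (x - u) - a := by abel
  change (|inner ℝ (x - (a + u)) e| ≤ 1 / 2 ∧
    ‖(x - (a + u)) - (inner ℝ (x - (a + u)) e) • e‖ ≤ δ) ↔ (|inner ℝ (x - u - a) e| ≤ 1 / 2 ∧
    ‖(x - u - a) - (inner ℝ (x - u - a) e) • e‖ ≤ δ)
  rw [h]

/-- The displacements for which `x` is in the displaced tube. -/
def ev {n : ℕ} (δ : ℝ) (a e x : E n) : Set (E n) := {u | x ∈ tube δ (a + u) e}

theorem zset_meas {n : ℕ} (δ : ℝ) (a e : E n) :
    MeasurableSet {p : E n × E n | p.1 ∈ tube δ (a + p.2) e} := by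
  have h1 : Continuous fun p : E n × E n => |inner ℝ (p.1 - (a + p.2)) e| := by fun_prop
  have h2 : Continuous fun p : E n × E n =>
      ‖(p.1 - (a + p.2)) - (inner ℝ (p.1 - (a + p.2)) e) • e‖ := by fun_prop
  exact ((isClosed_le h1 continuous_const).inter (isClosed_le h2 continuous_const)).measurableSet

theorem ev_meas {n : ℕ} (δ : ℝ) (a e x : E n) : MeasurableSet (ev δ a e x) :=
  measurable_prodMk_left (zset_meas δ a e)

/-- The probability that `x` is in the displaced tube, before normalisation. -/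
theorem ev_vol {n : ℕ} (δ ρ : ℝ) (a e x : E n) :
    unif n ρ (ev δ a e x) = (volume (closedBall (0 : E n) ρ))⁻¹ *
      volume {y | y ∈ tube δ a e ∧ ‖y - x‖ ≤ ρ} := by
  unfold unif
  rw [Measure.smul_apply, smul_eq_mul, Measure.restrict_apply (ev_meas δ a e x)]
  congr 1
  have h1 : ev δ a e x ∩ closedBall (0 : E n) ρ =
      (fun u => x - u) ⁻¹' {y | y ∈ tube δ a e ∧ ‖y - x‖ ≤ ρ} := by
    ext u
    rw [mem_inter_iff, mem_closedBall_zero_iff]
    change (x ∈ tube δ (a + u) e ∧ ‖u‖ ≤ ρ) ↔ (x - u ∈ tube δ a e ∧ ‖x - u - x‖ ≤ ρ)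
    have h2 : ‖x - u - x‖ = ‖u‖ := by
      rw [show x - u - x = -u by abel, norm_neg]
    rw [h2, mem_shift]
  rw [h1]
  have h3 : MeasurableSet {y | y ∈ tube δ a e ∧ ‖y - x‖ ≤ ρ} := by
    apply (tube_meas δ a e).inter
    have h4 : Continuous fun y : E n => ‖y - x‖ := by fun_prop
    exact (isClosed_le h4 continuous_const).measurableSet
  exact (Measure.measurePreserving_sub_left volume x).measure_preimage h3.nullMeasurableSet

theorem ev_le {n : ℕ} (hn : 1 ≤ n) {δ ρ : ℝ} (hδ : 0 < δ) (hρ : 0 < ρ) {e : E n} (he : ‖e‖ = 1)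
    (a x : E n) : unif n ρ (ev δ a e x) ≤ ENNReal.ofReal (Cv n / vb n * (δ / ρ) ^ (n - 1)) := by
  have hv := vb_pos n
  have hC := Cv_pos n
  rw [ev_vol, vol_cball _ hρ.le, ← ENNReal.ofReal_inv_of_pos (by positivity)]
  refine (mul_le_mul_right (vol_near hn he hδ hρ x) _).trans ?_
  rw [← ENNReal.ofReal_mul (by positivity)]
  apply ENNReal.ofReal_le_ofReal
  obtain ⟨m, rfl⟩ : ∃ m, n = m + 1 := ⟨n - 1, by omega⟩
  rw [Nat.add_sub_cancel, div_pow, pow_succ]
  apply le_of_eq
  field_simp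

theorem ev_zero {n : ℕ} {δ ρ : ℝ} (hδρ : δ ≤ ρ) (hρ2 : ρ ≤ 1 / 2) {e : E n}
    (he : ‖e‖ = 1) (a x : E n) (h1 : x ∉ tube (2 * ρ) (a + (1 / 2 : ℝ) • e) e)
    (h2 : x ∉ tube (2 * ρ) (a - (1 / 2 : ℝ) • e) e) : unif n ρ (ev δ a e x) = 0 := by
  have hemp : ev δ a e x ∩ closedBall (0 : E n) ρ = ∅ := by
    rw [Set.eq_empty_iff_forall_notMem]
    rintro u ⟨hu, hu0⟩
    rw [mem_closedBall_zero_iff] at hu0
    have hu' : x ∈ tube δ (a + u) e := hu
    rw [mem_shift] at hu'
    obtain ⟨h3, h4⟩ := hu'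
    have hue : |inner ℝ u e| ≤ ρ := by
      have := abs_real_inner_le_norm u e
      rw [he, mul_one] at this
      exact this.trans hu0
    set s : ℝ := inner ℝ (x - a) e with hs
    have h5 : (inner ℝ (x - u - a) e : ℝ) = s - inner ℝ u e := by
      rw [hs, ← inner_sub_left]
      congr 1
      abel
    rw [h5] at h3 h4
    have hs1 : |s| ≤ 1 := by
      have : s = (s - inner ℝ u e) + inner ℝ u e := by ring
      rw [this]
      refine (abs_add_le _ _).trans ?_
      linarith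
    have hperp : ‖(x - a) - s • e‖ ≤ 2 * ρ := by
      have h6 : (x - a) - s • e = ((x - u - a) - (s - inner ℝ u e) • e) +
          (u - (inner ℝ u e : ℝ) • e) := by
        rw [sub_smul]; abel
      have h7 : ‖u - (inner ℝ u e : ℝ) • e‖ ≤ ‖u‖ := by
        have h8 : ‖u - (inner ℝ u e : ℝ) • e‖ ^ 2 = ‖u‖ ^ 2 - (inner ℝ u e) ^ 2 := by
          rw [norm_sub_sq_real, inner_smul_right, norm_smul, he, mul_one, Real.norm_eq_abs, sq_abs]
          ring
        have h9 : ‖u - (inner ℝ u e : ℝ) • e‖ ^ 2 ≤ ‖u‖ ^ 2 := by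
          rw [h8]; nlinarith [sq_nonneg (inner ℝ u e : ℝ)]
        exact le_of_sq_le_sq h9 (norm_nonneg _)
      rw [h6]
      refine (norm_add_le _ _).trans ?_
      linarith
    rw [abs_le] at hs1
    rcases le_total 0 s with h0 | h0
    · apply h1
      have e1 : (inner ℝ (x - (a + (1 / 2 : ℝ) • e)) e : ℝ) = s - 1 / 2 := by
        rw [show x - (a + (1 / 2 : ℝ) • e) = (x - a) - (1 / 2 : ℝ) • e by abel, inner_sub_left,
          inner_smul_left, real_inner_self_eq_norm_sq, he, ← hs]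
        simp
      refine ⟨?_, ?_⟩
      · rw [e1, abs_le]; constructor <;> linarith
      · rw [e1]
        refine le_trans (le_of_eq ?_) hperp
        congr 1
        rw [sub_smul]; abel
    · apply h2
      have e1 : (inner ℝ (x - (a - (1 / 2 : ℝ) • e)) e : ℝ) = s + 1 / 2 := by
        rw [show x - (a - (1 / 2 : ℝ) • e) = (x - a) + (1 / 2 : ℝ) • e by abel, inner_add_left,
          inner_smul_left, real_inner_self_eq_norm_sq, he, ← hs]
        simp
      refine ⟨?_, ?_⟩
      · rw [e1, abs_le]; constructor <;> linarith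
      · rw [e1]
        refine le_trans (le_of_eq ?_) hperp
        congr 1
        rw [add_smul]; abel
  unfold unif
  rw [Measure.smul_apply, Measure.restrict_apply (ev_meas δ a e x), hemp, measure_empty, smul_zero]

/-- The total mass of the probabilities. -/
theorem ev_int {n : ℕ} (hn : 1 ≤ n) {δ ρ : ℝ} (hδ : 0 < δ) (hδ1 : δ < 1) (hρ : 0 < ρ) {e : E n}
    (he : ‖e‖ = 1) (a : E n) :
    ∫⁻ x, unif n ρ (ev δ a e x) ≤ ENNReal.ofReal (Cv n * 2 * δ ^ (n - 1)) := by
  have := unif_prob n hρ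
  have hZ := zset_meas δ a e
  have h1 : ∫⁻ x, unif n ρ (ev δ a e x) =
      (volume.prod (unif n ρ)) {p : E n × E n | p.1 ∈ tube δ (a + p.2) e} := by
    rw [Measure.prod_apply hZ]
    rfl
  rw [h1, Measure.prod_apply_symm hZ]
  calc ∫⁻ u, volume ((fun x => (x, u)) ⁻¹' {p : E n × E n | p.1 ∈ tube δ (a + p.2) e}) ∂(unif n ρ)
      ≤ ∫⁻ _u, ENNReal.ofReal (Cv n * 2 * δ ^ (n - 1)) ∂(unif n ρ) := by
        apply lintegral_mono
        intro u
        exact vol_tube hn (a := a + u) he hδ hδ1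
    _ = _ := by rw [lintegral_const, measure_univ, mul_one]

/-- The inequality on average over independent uniform displacements of size `ρ` (in `q`-th
powers), at the scale `δ`, with the constant `C`. -/
def TypC (d : ℕ) (q δ ρ C : ℝ) : Prop := ∀ (ι : Type) [Fintype ι]
    (a e : ι → E (d + 1)), (∀ i, ‖e i‖ = 1) →
    (∀ i j, i ≠ j → δ ≤ ‖e i - e j‖) →
    ∫⁻ u : ι → E (d + 1), (∫⁻ x, mult (fun i => tube δ (a i + u i) (e i)) x ^ q)
      ∂(Measure.pi fun _ : ι => unif (d + 1) ρ) ≤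
      ENNReal.ofReal (C * (δ ^ d * (Fintype.card ι : ℝ) ^ (q - 1 / (d : ℝ))))

theorem mult_joint {n : ℕ} {ι : Type} [Fintype ι] (δ : ℝ) (a e : ι → E n) :
    Measurable fun p : (ι → E n) × E n => mult (fun i => tube δ (a i + p.1 i) (e i)) p.2 := by
  unfold mult
  apply Finset.measurable_sum
  intro i _
  have h1 : (fun p : (ι → E n) × E n =>
      (tube δ (a i + p.1 i) (e i)).indicator (1 : E n → ℝ≥0∞) p.2) =
      fun p => ({p : E n × E n | p.1 ∈ tube δ (a i + p.2) (e i)}).indicator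
        (1 : E n × E n → ℝ≥0∞) (p.2, p.1 i) := by
    funext p
    by_cases hx : p.2 ∈ tube δ (a i + p.1 i) (e i)
    · rw [indicator_of_mem hx, indicator_of_mem (show (p.2, p.1 i) ∈ _ from hx)]
      rfl
    · rw [indicator_of_notMem hx, indicator_of_notMem (show (p.2, p.1 i) ∉ _ from hx)]
  rw [h1]
  refine (measurable_one.indicator (zset_meas δ (a i) (e i))).comp ?_
  exact measurable_snd.prodMk ((measurable_pi_apply i).comp measurable_fst)

theorem mult_ev {n : ℕ} {ι : Type} [Fintype ι] (δ : ℝ) (a e : ι → E n) (u : ι → E n) (x : E n) :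
    mult (fun i => tube δ (a i + u i) (e i)) x =
      ∑ i, (ev δ (a i) (e i) x).indicator (1 : E n → ℝ≥0∞) (u i) := by
  unfold mult
  refine Finset.sum_congr rfl fun i _ => ?_
  by_cases hx : x ∈ tube δ (a i + u i) (e i)
  · rw [indicator_of_mem hx, indicator_of_mem (show u i ∈ ev δ (a i) (e i) x from hx)]
    rfl
  · rw [indicator_of_notMem hx, indicator_of_notMem (show u i ∉ ev δ (a i) (e i) x from hx)]

theorem mean_meas {n : ℕ} {ι : Type} [Fintype ι] {ρ : ℝ} (hρ : 0 < ρ) (δ : ℝ) (a e : ι → E n) :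
    Measurable fun x : E n => ∑ i, unif n ρ (ev δ (a i) (e i) x) := by
  have := unif_prob n hρ
  apply Finset.measurable_sum
  intro i _
  exact measurable_measure_prodMk_left (zset_meas δ (a i) (e i))

/-- The integral over the displacements and over the space, in the other order. -/
theorem swap {n : ℕ} {ι : Type} [Fintype ι] {ρ : ℝ} (hρ : 0 < ρ) (δ : ℝ) (a e : ι → E n)
    (q : ℝ) :
    ∫⁻ u : ι → E n, (∫⁻ x, mult (fun i => tube δ (a i + u i) (e i)) x ^ q)
      ∂(Measure.pi fun _ : ι => unif n ρ) =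
    ∫⁻ x, (∫⁻ u : ι → E n, (∑ i, (ev δ (a i) (e i) x).indicator (1 : E n → ℝ≥0∞) (u i)) ^ q
      ∂(Measure.pi fun _ : ι => unif n ρ)) := by
  have := unif_prob n hρ
  rw [lintegral_lintegral_swap ((mult_joint δ a e).pow_const q).aemeasurable]
  refine lintegral_congr fun x => lintegral_congr fun u => ?_
  rw [mult_ev]

theorem card_le_pow {d : ℕ} {q : ℝ} (hq : 1 + 1 / (d : ℝ) ≤ q) (N : ℕ) :
    (N : ℝ) ≤ (N : ℝ) ^ (q - 1 / (d : ℝ)) := by
  rcases Nat.eq_zero_or_pos N with h | h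
  · subst h
    rw [Nat.cast_zero, Real.zero_rpow (by linarith)]
  · have h1 : (1 : ℝ) ≤ N := by exact_mod_cast h
    calc (N : ℝ) = (N : ℝ) ^ (1 : ℝ) := (Real.rpow_one _).symm
      _ ≤ _ := Real.rpow_le_rpow_of_exponent_le h1 (by linarith)

theorem mean_int {d : ℕ} {q : ℝ} (hq : 1 + 1 / (d : ℝ) ≤ q) {δ ρ : ℝ} (hδ : 0 < δ)
    (hδ1 : δ < 1) (hρ : 0 < ρ) {ι : Type} [Fintype ι] (a e : ι → E (d + 1))
    (he : ∀ i, ‖e i‖ = 1) :
    ∫⁻ x, ∑ i, unif (d + 1) ρ (ev δ (a i) (e i) x) ≤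
      ENNReal.ofReal (Cv (d + 1) * 2 * (δ ^ d * (Fintype.card ι : ℝ) ^ (q - 1 / (d : ℝ)))) := by
  have := unif_prob (d + 1) hρ
  have hC := Cv_pos (d + 1)
  have h0 : ∀ i ∈ (Finset.univ : Finset ι), Measurable fun x =>
      unif (d + 1) ρ (ev δ (a i) (e i) x) := fun i _ =>
    measurable_measure_prodMk_left (zset_meas δ (a i) (e i))
  rw [lintegral_finsetSum _ h0]
  calc ∑ i, ∫⁻ x, unif (d + 1) ρ (ev δ (a i) (e i) x)
      ≤ ∑ _i : ι, ENNReal.ofReal (Cv (d + 1) * 2 * δ ^ d) := by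
        apply Finset.sum_le_sum
        intro i _
        have := ev_int (n := d + 1) (by omega) hδ hδ1 hρ (he i) (a i)
        rwa [Nat.add_sub_cancel] at this
    _ = ENNReal.ofReal (Cv (d + 1) * 2 * δ ^ d * Fintype.card ι) := by
        rw [Finset.sum_const, Finset.card_univ, nsmul_eq_mul, mul_comm,
          ENNReal.ofReal_mul (p := Cv (d + 1) * 2 * δ ^ d) (by positivity), ENNReal.ofReal_natCast]
    _ ≤ _ := by
        apply ENNReal.ofReal_le_ofReal
        have := card_le_pow hq (Fintype.card ι)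
        rw [mul_assoc (Cv (d + 1) * 2)]
        gcongr

end Pool.Agent.H160.KD
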