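import Pool.Agent.H160.KD.Up
set_option autoImplicit false

/-!
# Tubes displaced by independent uniform vectors: the upper bound, conclusion
-/

open MeasureTheory Set Metric
open scoped ENNReal NNReal

namespace Pool.Agent.H160.KD
open Pool.Agent.Y254 (tube tube_meas tube_closed vol_near vol_tube Cv Cv_pos mult mult_meas mult_le)
open Pool.Agent.TH705.RR (E vb vb_pos vol_cball)

/-- Reduction to the mean multiplicity. -/
theorem red {n : ℕ} {q : ℝ} (hq : 1 ≤ q) {ι : Type} [Fintype ι] {ρ : ℝ} (hρ : 0 < ρ) (δ : ℝ)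
    (a e : ι → E n) :
    ∫⁻ u : ι → E n, (∫⁻ x, mult (fun i => tube δ (a i + u i) (e i)) x ^ q)
      ∂(Measure.pi fun _ : ι => unif n ρ) ≤
    ENNReal.ofReal ((⌈q⌉₊.factorial : ℝ) * 16) *
      ((∫⁻ x, ∑ i, unif n ρ (ev δ (a i) (e i) x)) +
        ∫⁻ x, (∑ i, unif n ρ (ev δ (a i) (e i) x)) ^ q) := by
  have := unif_prob n hρ
  rw [swap hρ]
  calc ∫⁻ x, (∫⁻ u : ι → E n, (∑ i, (ev δ (a i) (e i) x).indicator (1 : E n → ℝ≥0∞) (u i)) ^ q
      ∂(Measure.pi fun _ : ι => unif n ρ))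
      ≤ ∫⁻ x, ENNReal.ofReal ((⌈q⌉₊.factorial : ℝ) * 16) *
        (∑ i, unif n ρ (ev δ (a i) (e i) x) + (∑ i, unif n ρ (ev δ (a i) (e i) x)) ^ q) := by
        apply lintegral_mono
        intro x
        exact moment' hq (unif n ρ) fun i => ev_meas δ (a i) (e i) x
    _ = _ := by
        have hm : Measurable fun x => ∑ i, unif n ρ (ev δ (a i) (e i) x) +
            (∑ i, unif n ρ (ev δ (a i) (e i) x)) ^ q :=
          (mean_meas hρ δ a e).add ((mean_meas hρ δ a e).pow_const q)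
        rw [lintegral_const_mul _ hm, lintegral_add_left (mean_meas hρ δ a e)]

/-- The upper bound at small scales. -/
theorem upper {d : ℕ} (hd : 1 ≤ d) {q : ℝ} (hq : 1 + 1 / (d : ℝ) ≤ q) : ∃ K : ℝ, 0 < K ∧
    ∀ C δ ρ : ℝ, 0 ≤ C → 0 < δ → δ < 1 → δ ≤ ρ → ρ < 1 / 2 → WorstC d q (2 * ρ) C →
      TypC d q δ ρ (K * (1 + C * (δ / ρ) ^ ((d : ℝ) * q - d - 1))) := by
  obtain ⟨K2, hK2, hless⟩ := lessE hd hq
  have hd0 : (0 : ℝ) < d := by exact_mod_cast hd
  have hp0 : 0 < 1 / (d : ℝ) := by positivity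
  have hq1 : 1 ≤ q := by linarith
  have hq0 : 0 < q := by linarith
  have hCv := Cv_pos (d + 1)
  have hvb := vb_pos (d + 1)
  set K1 : ℝ := (⌈q⌉₊.factorial : ℝ) * 16 with hK1
  have hK1p : 0 < K1 := by
    have : (0 : ℝ) < (⌈q⌉₊.factorial : ℝ) := by exact_mod_cast Nat.factorial_pos _
    positivity
  set A : ℝ := Cv (d + 1) / vb (d + 1) with hA
  have hAp : 0 < A := by positivity
  set K3 : ℝ := A ^ q * 2 ^ q * (K2 * 2 * 2 ^ d) with hK3
  have hK3p : 0 < K3 := by positivity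
  refine ⟨K1 * (Cv (d + 1) * 2 + K3), by positivity, ?_⟩
  intro C δ ρ hC hδ hδ1 hδρ hρ2 hW ι _ a e he hsep
  have hρ : 0 < ρ := by linarith
  set N : ℝ := (Fintype.card ι : ℝ) with hN
  set R : ℝ := δ ^ d * N ^ (q - 1 / (d : ℝ)) with hR
  have hR0 : 0 ≤ R := by positivity
  set g : ℝ := (δ / ρ) ^ ((d : ℝ) * q - d - 1) with hg
  have hg0 : 0 ≤ g := by positivity
  have h1 := mean_int hq hδ hδ1 hρ a e he
  -- the mean multiplicity is dominated by two families of thick tubes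
  set Tp : ι → Set (E (d + 1)) := fun i => tube (2 * ρ) (a i + (1 / 2 : ℝ) • e i) (e i) with hTp
  set Tm : ι → Set (E (d + 1)) := fun i => tube (2 * ρ) (a i - (1 / 2 : ℝ) • e i) (e i) with hTm
  have h2 : ∀ x, ∑ i, unif (d + 1) ρ (ev δ (a i) (e i) x) ≤
      ENNReal.ofReal (A * (δ / ρ) ^ d) * (mult Tp x + mult Tm x) := by
    intro x
    unfold mult
    rw [← Finset.sum_add_distrib, Finset.mul_sum]
    apply Finset.sum_le_sum
    intro i _
    by_cases hx1 : x ∈ Tp i
    · rw [indicator_of_mem hx1]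
      have h3 := ev_le (n := d + 1) (by omega) hδ hρ (he i) (a i) x
      rw [Nat.add_sub_cancel] at h3
      refine h3.trans ?_
      conv_lhs => rw [← mul_one (ENNReal.ofReal _)]
      gcongr
      exact le_self_add
    · by_cases hx2 : x ∈ Tm i
      · rw [indicator_of_mem hx2]
        have h3 := ev_le (n := d + 1) (by omega) hδ hρ (he i) (a i) x
        rw [Nat.add_sub_cancel] at h3
        refine h3.trans ?_
        conv_lhs => rw [← mul_one (ENNReal.ofReal _)]
        gcongr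
        exact le_add_self
      · rw [ev_zero hδρ hρ2.le (he i) (a i) x hx1 hx2]
        exact zero_le
  have hρδ : δ ≤ 2 * ρ := by linarith
  have hp := hless C δ (2 * ρ) hC hδ hδ1 hρδ hW ι (fun i => a i + (1 / 2 : ℝ) • e i) e he hsep
  have hm := hless C δ (2 * ρ) hC hδ hδ1 hρδ hW ι (fun i => a i - (1 / 2 : ℝ) • e i) e he hsep
  set V : ℝ := K2 * C * (2 * ρ / δ) * ((2 * ρ) ^ d * N ^ (q - 1 / (d : ℝ))) with hV
  have hV0 : 0 ≤ V := by positivity
  have h3 : ∫⁻ x, (∑ i, unif (d + 1) ρ (ev δ (a i) (e i) x)) ^ q ≤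
      ENNReal.ofReal (K3 * (C * g) * R) := by
    calc ∫⁻ x, (∑ i, unif (d + 1) ρ (ev δ (a i) (e i) x)) ^ q
        ≤ ∫⁻ x, ENNReal.ofReal (A * (δ / ρ) ^ d) ^ q * ((2 : ℝ≥0∞) ^ (q - 1) *
          (mult Tp x ^ q + mult Tm x ^ q)) := by
          apply lintegral_mono
          intro x
          refine (ENNReal.rpow_le_rpow (h2 x) hq0.le).trans ?_
          rw [ENNReal.mul_rpow_of_nonneg _ _ hq0.le]
          exact mul_le_mul_right (ENNReal.rpow_add_le_mul_rpow_add_rpow _ _ hq1) _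
      _ = ENNReal.ofReal (A * (δ / ρ) ^ d) ^ q * ((2 : ℝ≥0∞) ^ (q - 1) *
          ((∫⁻ x, mult Tp x ^ q) + ∫⁻ x, mult Tm x ^ q)) := by
          have m1 : Measurable fun x => mult Tp x ^ q :=
            (mult_meas fun i => tube_meas _ _ _).pow_const q
          have m2 : Measurable fun x => mult Tm x ^ q :=
            (mult_meas fun i => tube_meas _ _ _).pow_const q
          have m3 : Measurable fun x => mult Tp x ^ q + mult Tm x ^ q := m1.add m2
          have m4 : Measurable fun x => (2 : ℝ≥0∞) ^ (q - 1) * (mult Tp x ^ q + mult Tm x ^ q) :=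
            m3.const_mul _
          rw [lintegral_const_mul _ m4, lintegral_const_mul _ m3, lintegral_add_left m1]
      _ ≤ ENNReal.ofReal (A * (δ / ρ) ^ d) ^ q * ((2 : ℝ≥0∞) ^ (q - 1) *
          (ENNReal.ofReal V + ENNReal.ofReal V)) :=
          mul_le_mul_right (mul_le_mul_right (add_le_add hp hm) _) _
      _ = ENNReal.ofReal ((A * (δ / ρ) ^ d) ^ q * (2 ^ (q - 1) * (V + V))) := by
          rw [ENNReal.ofReal_rpow_of_nonneg (by positivity) hq0.le, ← ENNReal.ofReal_add hV0 hV0]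
          have e1 : (2 : ℝ≥0∞) ^ (q - 1) = ENNReal.ofReal ((2 : ℝ) ^ (q - 1)) := by
            rw [← ENNReal.ofReal_rpow_of_pos (by norm_num)]
            norm_num
          rw [e1, ← ENNReal.ofReal_mul (by positivity), ← ENNReal.ofReal_mul (by positivity)]
      _ = _ := by
          congr 1
          have e2 : (A * (δ / ρ) ^ d) ^ q = A ^ q * (δ / ρ) ^ ((d : ℝ) * q) := by
            rw [Real.mul_rpow hAp.le (by positivity), ← Real.rpow_natCast (δ / ρ) d,
              ← Real.rpow_mul (by positivity)]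
          have e3 : (2 : ℝ) ^ (q - 1) * (V + V) = 2 ^ q * V := by
            rw [Real.rpow_sub (by norm_num), Real.rpow_one]
            ring
          have e4 : (δ / ρ) ^ ((d : ℝ) * q) = g * ((δ / ρ) ^ d * (δ / ρ)) := by
            have hpos : 0 < δ / ρ := by positivity
            have e5 : (δ / ρ) ^ ((d : ℝ) + 1) = (δ / ρ) ^ d * (δ / ρ) := by
              rw [Real.rpow_add hpos, Real.rpow_natCast, Real.rpow_one]
            rw [hg, ← e5, ← Real.rpow_add hpos]
            congr 1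
            ring
          rw [e2, e3, e4, hV, hK3, hR, div_pow, mul_pow]
          field_simp
  refine (red hq1 hρ δ a e).trans ?_
  calc ENNReal.ofReal K1 * ((∫⁻ x, ∑ i, unif (d + 1) ρ (ev δ (a i) (e i) x)) +
        ∫⁻ x, (∑ i, unif (d + 1) ρ (ev δ (a i) (e i) x)) ^ q)
      ≤ ENNReal.ofReal K1 * (ENNReal.ofReal (Cv (d + 1) * 2 * R) +
        ENNReal.ofReal (K3 * (C * g) * R)) := by
        gcongr
    _ = ENNReal.ofReal (K1 * (Cv (d + 1) * 2 * R + K3 * (C * g) * R)) := by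
        rw [← ENNReal.ofReal_add (by positivity) (by positivity), ← ENNReal.ofReal_mul hK1p.le]
    _ ≤ _ := by
        apply ENNReal.ofReal_le_ofReal
        have h5 : 0 ≤ Cv (d + 1) * 2 * (C * g) * R := by positivity
        have h6 : 0 ≤ K3 * R := by positivity
        calc K1 * (Cv (d + 1) * 2 * R + K3 * (C * g) * R)
            ≤ K1 * ((Cv (d + 1) * 2 * R + K3 * (C * g) * R) +
              (Cv (d + 1) * 2 * (C * g) * R + K3 * R)) :=
              mul_le_mul_of_nonneg_left (by linarith) hK1p.le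
          _ = _ := by ring

/-- The upper bound for large displacements. -/
theorem upper_big {d : ℕ} {q : ℝ} (hd : 1 ≤ d) (hq : 1 + 1 / (d : ℝ) ≤ q) : ∃ K : ℝ, 0 < K ∧
    ∀ δ ρ : ℝ, 0 < δ → δ < 1 → 1 / 2 ≤ ρ → TypC d q δ ρ K := by
  obtain ⟨K0, hK0, hcnt⟩ := dircount (n := d + 1) (by omega)
  have hd0 : (0 : ℝ) < d := by exact_mod_cast hd
  have hp0 : 0 < 1 / (d : ℝ) := by positivity
  have hq1 : 1 ≤ q := by linarith
  have hq0 : 0 < q := by linarith
  have hCv := Cv_pos (d + 1)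
  have hvb := vb_pos (d + 1)
  set K1 : ℝ := (⌈q⌉₊.factorial : ℝ) * 16 with hK1
  have hK1p : 0 < K1 := by
    have : (0 : ℝ) < (⌈q⌉₊.factorial : ℝ) := by exact_mod_cast Nat.factorial_pos _
    positivity
  set A : ℝ := Cv (d + 1) / vb (d + 1) with hA
  have hAp : 0 < A := by positivity
  set M : ℝ := K0 * A * 2 ^ d with hM
  have hMp : 0 < M := by positivity
  refine ⟨K1 * ((1 + M ^ (q - 1)) * (Cv (d + 1) * 2)), by positivity, ?_⟩
  intro δ ρ hδ hδ1 hρ2 ι _ a e he hsep
  have hρ : 0 < ρ := by linarith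
  set N : ℝ := (Fintype.card ι : ℝ) with hN
  set R : ℝ := δ ^ d * N ^ (q - 1 / (d : ℝ)) with hR
  have hR0 : 0 ≤ R := by positivity
  have h1 := mean_int hq hδ hδ1 hρ a e he
  have hNc := hcnt δ hδ hδ1 e he hsep
  rw [Nat.add_sub_cancel] at hNc
  have h2 : ∀ x, ∑ i, unif (d + 1) ρ (ev δ (a i) (e i) x) ≤ ENNReal.ofReal M := by
    intro x
    calc ∑ i, unif (d + 1) ρ (ev δ (a i) (e i) x)
        ≤ ∑ _i : ι, ENNReal.ofReal (A * (δ / ρ) ^ d) := by
          apply Finset.sum_le_sum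
          intro i _
          have h3 := ev_le (n := d + 1) (by omega) hδ hρ (he i) (a i) x
          rwa [Nat.add_sub_cancel] at h3
      _ = ENNReal.ofReal (A * (δ / ρ) ^ d * N) := by
          rw [Finset.sum_const, Finset.card_univ, nsmul_eq_mul, mul_comm,
            ENNReal.ofReal_mul (p := A * (δ / ρ) ^ d) (by positivity), ENNReal.ofReal_natCast]
      _ ≤ _ := by
          apply ENNReal.ofReal_le_ofReal
          have h4 : (δ / ρ) ^ d ≤ 2 ^ d * δ ^ d := by
            rw [← mul_pow]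
            apply pow_le_pow_left₀ (by positivity)
            rw [div_le_iff₀ hρ]
            nlinarith
          calc A * (δ / ρ) ^ d * N ≤ A * (2 ^ d * δ ^ d) * (K0 * (1 / δ) ^ d) := by gcongr
            _ = M := by
                rw [hM, one_div, inv_pow]
                field_simp
  have h3 : ∀ x, (∑ i, unif (d + 1) ρ (ev δ (a i) (e i) x)) ^ q ≤
      ENNReal.ofReal (M ^ (q - 1)) * ∑ i, unif (d + 1) ρ (ev δ (a i) (e i) x) := by
    intro x
    rcases eq_or_ne (∑ i, unif (d + 1) ρ (ev δ (a i) (e i) x)) 0 with h0 | h0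
    · rw [h0, ENNReal.zero_rpow_of_pos hq0]
      exact zero_le
    have htop : ∑ i, unif (d + 1) ρ (ev δ (a i) (e i) x) ≠ ∞ :=
      ((h2 x).trans_lt ENNReal.ofReal_lt_top).ne
    calc (∑ i, unif (d + 1) ρ (ev δ (a i) (e i) x)) ^ q
        = (∑ i, unif (d + 1) ρ (ev δ (a i) (e i) x)) ^ (q - 1) *
          (∑ i, unif (d + 1) ρ (ev δ (a i) (e i) x)) ^ (1 : ℝ) := by
          rw [← ENNReal.rpow_add _ _ h0 htop]
          congr 1
          ring
      _ ≤ _ := by
          rw [ENNReal.rpow_one]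
          gcongr
          rw [← ENNReal.ofReal_rpow_of_pos hMp]
          exact ENNReal.rpow_le_rpow (h2 x) (by linarith)
  refine (red hq1 hρ δ a e).trans ?_
  calc ENNReal.ofReal K1 * ((∫⁻ x, ∑ i, unif (d + 1) ρ (ev δ (a i) (e i) x)) +
        ∫⁻ x, (∑ i, unif (d + 1) ρ (ev δ (a i) (e i) x)) ^ q)
      ≤ ENNReal.ofReal K1 * ((∫⁻ x, ∑ i, unif (d + 1) ρ (ev δ (a i) (e i) x)) +
        ENNReal.ofReal (M ^ (q - 1)) * ∫⁻ x, ∑ i, unif (d + 1) ρ (ev δ (a i) (e i) x)) := by
        gcongr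
        rw [← lintegral_const_mul _ (mean_meas hρ δ a e)]
        exact lintegral_mono h3
    _ = ENNReal.ofReal K1 * ((1 + ENNReal.ofReal (M ^ (q - 1))) *
        ∫⁻ x, ∑ i, unif (d + 1) ρ (ev δ (a i) (e i) x)) := by
        rw [add_mul, one_mul]
    _ ≤ ENNReal.ofReal K1 * ((1 + ENNReal.ofReal (M ^ (q - 1))) *
        ENNReal.ofReal (Cv (d + 1) * 2 * R)) := by
        gcongr
    _ = ENNReal.ofReal (K1 * ((1 + M ^ (q - 1)) * (Cv (d + 1) * 2 * R))) := by
        have e1 : (1 : ℝ≥0∞) + ENNReal.ofReal (M ^ (q - 1)) = ENNReal.ofReal (1 + M ^ (q - 1)) := by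
          rw [ENNReal.ofReal_add zero_le_one (by positivity), ENNReal.ofReal_one]
        rw [e1, ← ENNReal.ofReal_mul (by positivity), ← ENNReal.ofReal_mul hK1p.le]
    _ = _ := by
        congr 1
        ring

end Pool.Agent.H160.KD
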